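import Mathlib

set_option autoImplicit false

/-!
MP_120218_co, project TR, general form: the part of an integer free of a set of primes.
-/

open Finset

namespace Pool.Agent.Helper34.TR

/-- the `P`-part of an integer -/
def ppart (P : Finset ℕ) (g : ℤ) : ℕ := ∏ q ∈ P, q ^ padicValInt q g

/-- the part of the integer `g` free of the primes in `P` -/
def pf (P : Finset ℕ) (g : ℤ) : ℤ := g / (ppart P g : ℤ)

theorem ppart_pos {P : Finset ℕ} (hP : ∀ q ∈ P, q.Prime) (g : ℤ) : 0 < ppart P g :=
  prod_pos fun q hq => pow_pos (hP q hq).pos _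

theorem fact_eq {q : ℕ} (hq : q.Prime) (g : ℤ) : padicValInt q g = g.natAbs.factorization q := by
  rw [Nat.factorization_def _ hq]
  rfl

theorem ppart_fact {P : Finset ℕ} (hP : ∀ q ∈ P, q.Prime) (g : ℤ) (q : ℕ) :
    (ppart P g).factorization q = if q ∈ P then padicValInt q g else 0 := by
  unfold ppart
  rw [Nat.factorization_prod (fun p hp => pow_ne_zero _ (hP p hp).ne_zero), Finset.sum_apply']
  have h1 : ∀ p ∈ P, (p ^ padicValInt p g).factorization q =
      if p = q then padicValInt q g else 0 := by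
    intro p hp
    rw [(hP p hp).factorization_pow, Finsupp.single_apply]
    split_ifs with h
    · rw [h]
    · rfl
  rw [sum_congr rfl h1, sum_ite_eq' P q]

theorem ppart_dvd {P : Finset ℕ} (hP : ∀ q ∈ P, q.Prime) {g : ℤ} (hg : g ≠ 0) :
    (ppart P g : ℤ) ∣ g := by
  rw [Int.natCast_dvd, ← Nat.factorization_le_iff_dvd (ppart_pos hP g).ne'
    (Int.natAbs_ne_zero.2 hg)]
  intro q
  rw [ppart_fact hP]
  split_ifs with h
  · rw [fact_eq (hP q h)]
  · exact Nat.zero_le _

theorem ppart_mul_pf {P : Finset ℕ} (hP : ∀ q ∈ P, q.Prime) {g : ℤ} (hg : g ≠ 0) :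
    (ppart P g : ℤ) * pf P g = g := by
  unfold pf
  exact Int.mul_ediv_cancel' (ppart_dvd hP hg)

theorem pf_ne_zero {P : Finset ℕ} (hP : ∀ q ∈ P, q.Prime) {g : ℤ} (hg : g ≠ 0) : pf P g ≠ 0 := by
  intro h
  have := ppart_mul_pf hP hg
  rw [h, mul_zero] at this
  exact hg this.symm

theorem val_pf {P : Finset ℕ} (hP : ∀ q ∈ P, q.Prime) {g : ℤ} (hg : g ≠ 0) {q : ℕ}
    (hq : q.Prime) : padicValInt q (pf P g) = if q ∈ P then 0 else padicValInt q g := by
  have := Fact.mk hq
  have h1 : padicValInt q g = padicValInt q (ppart P g : ℤ) + padicValInt q (pf P g) := by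
    conv_lhs => rw [← ppart_mul_pf hP hg]
    exact padicValInt.mul (by exact_mod_cast (ppart_pos hP g).ne') (pf_ne_zero hP hg)
  have h2 : padicValInt q (ppart P g : ℤ) = if q ∈ P then padicValInt q g else 0 := by
    rw [fact_eq hq, Int.natAbs_natCast, ppart_fact hP]
  rw [h2] at h1
  split_ifs at h1 ⊢ with h
  · omega
  · omega

theorem sign_pf {P : Finset ℕ} (hP : ∀ q ∈ P, q.Prime) {g : ℤ} (hg : g ≠ 0) :
    Int.sign (pf P g) = Int.sign g := by
  have h1 : Int.sign (ppart P g : ℤ) = 1 :=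
    Int.sign_eq_one_of_pos (by exact_mod_cast ppart_pos hP g)
  conv_rhs => rw [← ppart_mul_pf hP hg, Int.sign_mul, h1, one_mul]

/-- two nonzero integers with the same sign and the same valuations are equal -/
theorem eq_of_val {a b : ℤ} (ha : a ≠ 0) (hb : b ≠ 0) (hs : Int.sign a = Int.sign b)
    (hv : ∀ q : ℕ, q.Prime → padicValInt q a = padicValInt q b) : a = b := by
  have habs : a.natAbs = b.natAbs := by
    apply Nat.eq_of_factorization_eq (Int.natAbs_ne_zero.2 ha) (Int.natAbs_ne_zero.2 hb)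
    intro q
    by_cases hq : q.Prime
    · rw [← fact_eq hq, ← fact_eq hq]
      exact hv q hq
    · rw [Nat.factorization_eq_zero_of_not_prime _ hq,
        Nat.factorization_eq_zero_of_not_prime _ hq]
  rw [← Int.sign_mul_natAbs a, ← Int.sign_mul_natAbs b, hs, habs]

end Pool.Agent.Helper34.TR
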