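import Pool.Agent.Helper26.TR.Iface

set_option autoImplicit false

/-!
MP_120218_co, project TR: the count.  The nonzero integers whose valuations agree with those of a
given integer up to the resolution `Ures` are at most `N ^ ζ` in number, once the weight of the
levels is less than `δ log N log log N` (note 2546 of helper73).
-/

open Finset

namespace Pool.Agent.Helper34.TR

open Pool.Agent.Helper26.TR

/-- the trivial count: sign and the valuations at the primes of `T` -/
theorem card_close (U : ℕ → ℕ) (T : Finset ℕ)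
    (hU : ∀ q : ℕ, q.Prime → q ∉ T → U q ≤ 1) (Y : Finset ℤ) (h0 : (0 : ℤ) ∉ Y) (b : ℤ)
    (F : Finset ℤ) (hFY : F ⊆ Y) (hF : ∀ b' ∈ F, Close U b b') (hT : ∀ q ∈ T, q.Prime) :
    F.card ≤ 2 * ∏ q ∈ T, (2 * U q) := by
  classical
  set P : Finset (ℤ × (∀ q ∈ T, ℤ)) :=
    ({1, -1} : Finset ℤ) ×ˢ T.pi (fun q => Finset.Ioo ((padicValInt q b : ℤ) - U q)
      ((padicValInt q b : ℤ) + U q)) with hP
  have h1 : F.card ≤ P.card := by
    apply Finset.card_le_card_of_injOn
      (fun b' => ((Int.sign b', fun q _ => (padicValInt q b' : ℤ)) : ℤ × (∀ q ∈ T, ℤ)))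
    · intro b' hb'
      have hb0 : b' ≠ 0 := fun h => h0 (h ▸ hFY hb')
      simp only [hP, Finset.coe_product, Set.mem_prod, Finset.mem_coe, Finset.mem_insert,
        Finset.mem_singleton, Finset.mem_pi, Finset.mem_Ioo]
      refine ⟨?_, ?_⟩
      · rcases lt_trichotomy b' 0 with h | h | h
        · right; exact Int.sign_eq_neg_one_of_neg h
        · exact absurd h hb0
        · left; exact Int.sign_eq_one_of_pos h
      · intro q hq
        have := hF b' hb' q (hT q hq)
        rw [abs_lt] at this
        constructor <;> linarith [this.1, this.2]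
    · intro x hx y hy hxy
      have hx0 : x ≠ 0 := fun h => h0 (h ▸ hFY hx)
      have hy0 : y ≠ 0 := fun h => h0 (h ▸ hFY hy)
      simp only [Prod.mk.injEq] at hxy
      obtain ⟨hs, hv⟩ := hxy
      have key : ∀ q : ℕ, q.Prime → padicValInt q x = padicValInt q y := by
        intro q hq
        by_cases hqT : q ∈ T
        · have := congrFun (congrFun hv q) hqT
          exact_mod_cast this
        · have hx1 := hF x hx q hq
          have hy1 := hF y hy q hq
          have hu := hU q hq hqT
          have hu' : (U q : ℤ) ≤ 1 := by exact_mod_cast hu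
          rw [abs_lt] at hx1 hy1
          have : (padicValInt q x : ℤ) = padicValInt q y := by
            have a1 := hx1.1; have a2 := hx1.2; have a3 := hy1.1; have a4 := hy1.2
            omega
          exact_mod_cast this
      have habs : x.natAbs = y.natAbs := by
        apply Nat.eq_of_factorization_eq (Int.natAbs_ne_zero.2 hx0) (Int.natAbs_ne_zero.2 hy0)
        intro q
        by_cases hq : q.Prime
        · rw [Nat.factorization_def _ hq, Nat.factorization_def _ hq]
          exact key q hq
        · rw [Nat.factorization_eq_zero_of_not_prime _ hq,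
            Nat.factorization_eq_zero_of_not_prime _ hq]
      rw [← Int.sign_mul_natAbs x, ← Int.sign_mul_natAbs y, hs, habs]
  have h2 : P.card = 2 * ∏ q ∈ T, (Finset.Ioo ((padicValInt q b : ℤ) - U q)
      ((padicValInt q b : ℤ) + U q)).card := by
    rw [hP, Finset.card_product, Finset.card_pi]
    rfl
  rw [h2] at h1
  refine h1.trans (Nat.mul_le_mul_left 2 ?_)
  apply Finset.prod_le_prod'
  intro q _
  rw [Int.card_Ioo]
  omega

theorem eventually_large (A ζ : ℝ) (hζ : 0 < ζ) :
    ∃ n₀ : ℕ, ∀ N : ℕ, n₀ ≤ N → 1 ≤ Real.log N ∧ 2 ≤ Real.exp (ζ / 4 * Real.log N) ∧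
      0 < Real.log (Real.log N) ∧
      Real.sqrt (Real.log N) * (A + 2 * Real.log (Real.log N)) ≤ ζ / 4 * Real.log N := by
  have hL : Filter.Tendsto (fun N : ℕ => Real.log (N : ℝ)) Filter.atTop Filter.atTop :=
    Real.tendsto_log_atTop.comp tendsto_natCast_atTop_atTop
  have hs : Filter.Tendsto (fun N : ℕ => Real.sqrt (Real.log (N : ℝ))) Filter.atTop
      Filter.atTop := Real.tendsto_sqrt_atTop.comp hL
  have e1 := hL.eventually_ge_atTop 2
  have e2 : ∀ᶠ N : ℕ in Filter.atTop, 4 / ζ ≤ Real.log (N : ℝ) := hL.eventually_ge_atTop _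
  have e3 : ∀ᶠ s : ℝ in Filter.atTop, ‖Real.log s‖ ≤ ζ / 32 * ‖s‖ := by
    have := Real.isLittleO_log_id_atTop.bound (c := ζ / 32) (by positivity)
    simpa using this
  have e3' := hs.eventually e3
  have e4 : ∀ᶠ N : ℕ in Filter.atTop, 8 * |A| / ζ ≤ Real.sqrt (Real.log (N : ℝ)) :=
    hs.eventually_ge_atTop _
  obtain ⟨n₀, hn₀⟩ := Filter.eventually_atTop.1 (e1.and (e2.and (e3'.and e4)))
  refine ⟨n₀, fun N hN => ?_⟩
  obtain ⟨h1, h2, h3, h4⟩ := hn₀ N hN
  set L := Real.log (N : ℝ) with hLdef
  set s := Real.sqrt L with hsdef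
  have hLpos : 0 < L := by linarith
  have hspos : 0 < s := Real.sqrt_pos.2 hLpos
  have hss : s * s = L := Real.mul_self_sqrt hLpos.le
  refine ⟨by linarith, ?_, Real.log_pos (by linarith), ?_⟩
  · have : 1 ≤ ζ / 4 * L := by
      rw [div_le_iff₀ hζ] at h2
      nlinarith
    have h5 := Real.add_one_le_exp (ζ / 4 * L)
    linarith
  · have hlog : Real.log L = 2 * Real.log s := by
      rw [← hss, Real.log_mul hspos.ne' hspos.ne']; ring
    have h3' : Real.log s ≤ ζ / 32 * s := by
      have := (le_abs_self (Real.log s)).trans h3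
      rwa [Real.norm_of_nonneg hspos.le] at this
    have h4' : A ≤ ζ / 8 * s := by
      rw [div_le_iff₀ hζ] at h4
      have := le_abs_self A
      nlinarith
    have h6 : A + 2 * Real.log L ≤ ζ / 4 * s := by
      rw [hlog]; linarith
    calc s * (A + 2 * Real.log L) ≤ s * (ζ / 4 * s) := mul_le_mul_of_nonneg_left h6 hspos.le
      _ = ζ / 4 * L := by rw [← hss]; ring

theorem countS : CountS := by
  classical
  intro K τ ζ hτ hζ
  set C1 : ℝ := 2 * K + 4 with hC1
  have hC1pos : 0 < C1 := by positivity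
  set A : ℝ := 4 * K + 4 * τ + 4 with hA
  have hApos : 0 < A := by positivity
  obtain ⟨n₀, hn₀⟩ := eventually_large A ζ hζ
  set δ : ℝ := min 1 (min (1 / (2 * τ)) (ζ / (8 * C1))) with hδ
  have hδpos : 0 < δ := by
    rw [hδ]
    refine lt_min one_pos (lt_min (by positivity) (by positivity))
  have hδ1 : δ ≤ 1 := min_le_left _ _
  have hδ2 : δ ≤ 1 / (2 * τ) := (min_le_right _ _).trans (min_le_left _ _)
  have hδ3 : δ ≤ ζ / (8 * C1) := (min_le_right _ _).trans (min_le_right _ _)
  refine ⟨δ, n₀ + 2, hδpos, ?_⟩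
  intro N n lam hN hlam hW Y b h0
  obtain ⟨hL1, h2exp, hLLpos, hsqrt⟩ := hn₀ N (by omega)
  set L := Real.log (N : ℝ) with hLdef
  set LL := Real.log L with hLLdef
  set Γ := Wt n lam with hΓ
  have hLpos : 0 < L := by linarith
  set T : Finset ℕ := ((Finset.range n).filter Nat.Prime).filter (fun q => lam q ≠ 0) with hT
  have hTp : ∀ q ∈ T, q.Prime := fun q hq => (Finset.mem_filter.1 (Finset.mem_filter.1 hq).1).2
  have hTl : ∀ q ∈ T, 1 ≤ lam q := fun q hq => Nat.one_le_iff_ne_zero.2 (Finset.mem_filter.1 hq).2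
  have hΓ0 : 0 ≤ Γ := by
    rw [hΓ]
    unfold Wt
    apply Finset.sum_nonneg
    intro q hq
    exact mul_nonneg (Nat.cast_nonneg _) (Real.log_natCast_nonneg q)
  have hterm : ∀ q ∈ T, (lam q : ℝ) * Real.log q ≤ Γ := by
    intro q hq
    rw [hΓ]
    unfold Wt
    exact Finset.single_le_sum (f := fun q : ℕ => (lam q : ℝ) * Real.log q)
      (fun i _ => mul_nonneg (Nat.cast_nonneg _) (Real.log_natCast_nonneg i))
      (Finset.mem_filter.1 hq).1
  have hsumT : ∑ q ∈ T, (lam q : ℝ) * Real.log q ≤ Γ := by
    rw [hΓ]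
    unfold Wt
    exact Finset.sum_le_sum_of_subset_of_nonneg (Finset.filter_subset _ _)
      (fun i _ _ => mul_nonneg (Nat.cast_nonneg _) (Real.log_natCast_nonneg i))
  set U : ℕ → ℕ := Ures K τ L Γ lam with hU
  have hcard : ((Y.filter (fun b' => Close U b b')).card : ℝ) ≤ 2 * ∏ q ∈ T, (2 * (U q : ℝ)) := by
    have := card_close U T (by
      intro q hq hqT
      by_cases hl : lam q = 0
      · rw [hU]; unfold Ures; rw [if_pos hl]
      · exfalso
        apply hqT
        rw [hT, Finset.mem_filter, Finset.mem_filter, Finset.mem_range]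
        refine ⟨⟨?_, hq⟩, hl⟩
        by_contra h
        exact hl (hlam q (not_lt.1 h))) Y h0 b (Y.filter (fun b' => Close U b b'))
        (Finset.filter_subset _ _) (fun b' hb' => (Finset.mem_filter.1 hb').2) hTp
    exact_mod_cast this
  -- the bound of one factor
  set g : ℕ → ℝ := fun q => if 2 * Real.log q ≤ LL then A + 2 * LL else C1 * lam q with hg
  have hUle : ∀ q ∈ T, (U q : ℝ) ≤ K * lam q + τ * Γ / (L * Real.log q) + 1 := by
    intro q hq
    have hl : lam q ≠ 0 := (Finset.mem_filter.1 hq).2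
    have hlogq : 0 < Real.log (q : ℝ) :=
      Real.log_pos (by exact_mod_cast (hTp q hq).one_lt)
    have : U q = K * lam q + ⌈τ * Γ / (L * Real.log q)⌉₊ := by
      rw [hU]; unfold Ures; rw [if_neg hl]
    rw [this]
    push_cast
    have h3 := Nat.ceil_lt_add_one (a := τ * Γ / (L * Real.log q)) (by positivity)
    linarith
  have hfac : ∀ q ∈ T, 2 * (U q : ℝ) ≤ Real.exp (g q) := by
    intro q hq
    have hlogq : 0 < Real.log (q : ℝ) :=
      Real.log_pos (by exact_mod_cast (hTp q hq).one_lt)
    have hlam1 : (1 : ℝ) ≤ lam q := by exact_mod_cast hTl q hq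
    have hu := hUle q hq
    have hΓL : Γ ≤ δ * (L * LL) := hW.le
    by_cases hc : 2 * Real.log q ≤ LL
    · have hgq : g q = A + 2 * LL := by rw [hg]; exact if_pos hc
      rw [hgq, Real.exp_add]
      have hexp2 : Real.exp (2 * LL) = L * L := by
        rw [two_mul, Real.exp_add, hLLdef, Real.exp_log hLpos]
      rw [hexp2]
      have hq2 : (1 / 2 : ℝ) ≤ Real.log q := by
        have h2 : Real.log 2 ≤ Real.log (q : ℝ) :=
          Real.log_le_log (by norm_num) (by exact_mod_cast (hTp q hq).two_le)
        have := Real.log_two_gt_d9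
        linarith
      have hLLL : LL ≤ L := by
        have := Real.log_le_sub_one_of_pos hLpos
        linarith
      have hΓ2 : Γ ≤ L * L := by
        calc Γ ≤ δ * (L * LL) := hΓL
          _ ≤ 1 * (L * L) := by
            apply mul_le_mul hδ1 _ (by positivity) zero_le_one
            exact mul_le_mul_of_nonneg_left hLLL hLpos.le
          _ = L * L := one_mul _
      have hl2 : (lam q : ℝ) ≤ 2 * (L * L) := by
        have h5 := (hterm q hq).trans hΓ2
        have h6 : (lam q : ℝ) * (1 / 2) ≤ lam q * Real.log q :=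
          mul_le_mul_of_nonneg_left hq2 (by positivity)
        linarith
      have hfrac : τ * Γ / (L * Real.log q) ≤ 2 * τ * (L * L) := by
        rw [div_le_iff₀ (by positivity)]
        have h7 : τ * Γ ≤ τ * (L * L) := mul_le_mul_of_nonneg_left hΓ2 hτ.le
        have h8 : (1 / 2 : ℝ) ≤ L * Real.log q := by nlinarith
        have h9 : 0 ≤ 2 * τ * (L * L) := by positivity
        have h10 : 2 * τ * (L * L) * (1 / 2) ≤ 2 * τ * (L * L) * (L * Real.log q) :=
          mul_le_mul_of_nonneg_left h8 h9
        linarith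
      have hLL1 : 1 ≤ L * L := by nlinarith
      have hK : (K : ℝ) * lam q ≤ K * (2 * (L * L)) :=
        mul_le_mul_of_nonneg_left hl2 (Nat.cast_nonneg _)
      have h11 : 2 * (U q : ℝ) ≤ A * (L * L) := by
        rw [hA]
        nlinarith
      have h12 : A * (L * L) ≤ Real.exp A * (L * L) := by
        apply mul_le_mul_of_nonneg_right _ (by positivity)
        have := Real.add_one_le_exp A
        linarith
      linarith
    · have hgq : g q = C1 * lam q := by rw [hg]; exact if_neg hc
      rw [hgq]
      have hc' : LL < 2 * Real.log q := not_le.1 hc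
      have hfrac : τ * Γ / (L * Real.log q) ≤ 1 := by
        rw [div_le_one (by positivity)]
        have h7 : τ * Γ ≤ τ * (1 / (2 * τ) * (L * LL)) := by
          apply mul_le_mul_of_nonneg_left _ hτ.le
          exact hΓL.trans (mul_le_mul_of_nonneg_right hδ2 (by positivity))
        have h8 : τ * (1 / (2 * τ) * (L * LL)) = L * (LL / 2) := by
          field_simp
        rw [h8] at h7
        have h9 : L * (LL / 2) ≤ L * Real.log q :=
          mul_le_mul_of_nonneg_left (by linarith) hLpos.le
        linarith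
      have h10 : 2 * (U q : ℝ) ≤ C1 * lam q := by
        rw [hC1]
        nlinarith
      have := Real.add_one_le_exp (C1 * lam q)
      linarith
  have hprod : ∏ q ∈ T, (2 * (U q : ℝ)) ≤ Real.exp (∑ q ∈ T, g q) := by
    rw [Real.exp_sum]
    exact Finset.prod_le_prod (fun q _ => by positivity) hfac
  -- the sum
  have hsum : ∑ q ∈ T, g q ≤ ζ / 2 * L := by
    rw [← Finset.sum_filter_add_sum_filter_not T (fun q : ℕ => 2 * Real.log (q : ℝ) ≤ LL)]
    have hsmall : ∑ q ∈ T.filter (fun q : ℕ => 2 * Real.log (q : ℝ) ≤ LL), g q ≤ ζ / 4 * L := by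
      have h1 : ∑ q ∈ T.filter (fun q : ℕ => 2 * Real.log (q : ℝ) ≤ LL), g q =
          ∑ q ∈ T.filter (fun q : ℕ => 2 * Real.log (q : ℝ) ≤ LL), (A + 2 * LL) := by
        apply Finset.sum_congr rfl
        intro q hq
        rw [hg]
        exact if_pos (Finset.mem_filter.1 hq).2
      rw [h1, Finset.sum_const, nsmul_eq_mul]
      have hcardle : ((T.filter (fun q : ℕ => 2 * Real.log (q : ℝ) ≤ LL)).card : ℝ) ≤
          Real.sqrt L := by
        have hsub : T.filter (fun q : ℕ => 2 * Real.log (q : ℝ) ≤ LL) ⊆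
            Finset.Icc 1 ⌊Real.sqrt L⌋₊ := by
          intro q hq
          obtain ⟨hqT, hql⟩ := Finset.mem_filter.1 hq
          have hqpos : (0 : ℝ) < q := by exact_mod_cast (hTp q hqT).pos
          rw [Finset.mem_Icc]
          refine ⟨(hTp q hqT).one_le, ?_⟩
          apply Nat.le_floor
          apply Real.le_sqrt_of_sq_le
          have : Real.log ((q : ℝ) ^ 2) ≤ Real.log L := by
            rw [Real.log_pow]
            push_cast
            exact hql
          exact (Real.log_le_log_iff (by positivity) hLpos).1 this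
        have h3 := Finset.card_le_card hsub
        rw [Nat.card_Icc] at h3
        have h4 : ((T.filter (fun q : ℕ => 2 * Real.log (q : ℝ) ≤ LL)).card : ℝ) ≤
            (⌊Real.sqrt L⌋₊ : ℝ) := by
          exact_mod_cast (by omega :
            (T.filter (fun q : ℕ => 2 * Real.log (q : ℝ) ≤ LL)).card ≤ ⌊Real.sqrt L⌋₊)
        exact h4.trans (Nat.floor_le (Real.sqrt_nonneg _))
      calc _ ≤ Real.sqrt L * (A + 2 * LL) :=
            mul_le_mul_of_nonneg_right hcardle (by positivity)
        _ ≤ ζ / 4 * L := hsqrt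
    have hbig : ∑ q ∈ T.filter (fun q : ℕ => ¬ 2 * Real.log (q : ℝ) ≤ LL), g q ≤ ζ / 4 * L := by
      have h1 : ∑ q ∈ T.filter (fun q : ℕ => ¬ 2 * Real.log (q : ℝ) ≤ LL), g q ≤
          ∑ q ∈ T.filter (fun q : ℕ => ¬ 2 * Real.log (q : ℝ) ≤ LL),
            (2 * C1 / LL) * ((lam q : ℝ) * Real.log q) := by
        apply Finset.sum_le_sum
        intro q hq
        have hc := (Finset.mem_filter.1 hq).2
        have hgq : g q = C1 * lam q := by rw [hg]; exact if_neg hc
        rw [hgq]
        have hc' : LL ≤ 2 * Real.log q := (not_le.1 hc).le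
        have h5 : 2 * C1 / LL * ((lam q : ℝ) * Real.log q) =
            C1 * lam q * (2 * Real.log q / LL) := by ring
        rw [h5]
        have h6 : 1 ≤ 2 * Real.log q / LL := by rwa [one_le_div hLLpos]
        exact le_mul_of_one_le_right (by positivity) h6
      have h2 : ∑ q ∈ T.filter (fun q : ℕ => ¬ 2 * Real.log (q : ℝ) ≤ LL),
          (2 * C1 / LL) * ((lam q : ℝ) * Real.log q) ≤ (2 * C1 / LL) * Γ := by
        rw [← Finset.mul_sum]
        apply mul_le_mul_of_nonneg_left _ (by positivity)
        refine le_trans ?_ hsumT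
        exact Finset.sum_le_sum_of_subset_of_nonneg (Finset.filter_subset _ _)
          (fun i _ _ => mul_nonneg (Nat.cast_nonneg _) (Real.log_natCast_nonneg i))
      have h3 : (2 * C1 / LL) * Γ ≤ (2 * C1 / LL) * (ζ / (8 * C1) * (L * LL)) := by
        apply mul_le_mul_of_nonneg_left _ (by positivity)
        exact hW.le.trans (mul_le_mul_of_nonneg_right hδ3 (by positivity))
      have h4 : (2 * C1 / LL) * (ζ / (8 * C1) * (L * LL)) = ζ / 4 * L := by
        field_simp
        ring
      linarith
    linarith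
  calc ((Y.filter (fun b' => Close U b b')).card : ℝ) ≤ 2 * ∏ q ∈ T, (2 * (U q : ℝ)) := hcard
    _ ≤ Real.exp (ζ / 4 * L) * Real.exp (∑ q ∈ T, g q) := by
      apply mul_le_mul h2exp hprod (Finset.prod_nonneg (fun q _ => by positivity))
        (Real.exp_pos _).le
    _ ≤ Real.exp (ζ / 4 * L) * Real.exp (ζ / 2 * L) := by
      apply mul_le_mul_of_nonneg_left _ (Real.exp_pos _).le
      exact Real.exp_le_exp.2 hsum
    _ ≤ Real.exp (L * ζ) := by
      rw [← Real.exp_add]
      apply Real.exp_le_exp.2
      nlinarith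
    _ = (N : ℝ) ^ ζ := by
      have hNpos : (0 : ℝ) < N := by
        have : 0 < N := by omega
        exact_mod_cast this
      rw [Real.rpow_def_of_pos hNpos]

end Pool.Agent.Helper34.TR
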