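import Pool.Agent.Helper88.NZ.Mix

set_option autoImplicit false

/-!
MP_120218_co, project TR: the statement about rational translates (mixed form) from the structure
theorem for `k` sets.  The translate by `x = u / w` is replaced by the set of integers `w A + u`;
differences of translates are replaced by the determinants `u w' - u' w`.
-/

open Finset

namespace Pool.Agent.Helper34.TR

open Pool.Agent.Helper26.TR Pool.Agent.Helper88.NZ

/-- the affine image `den · A + num` of a set -/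
def shq (A : Finset ℤ) (x : ℚ) : Finset ℤ := A.image (fun a => a * x.den + x.num)

theorem aff_inj (x : ℚ) : Function.Injective (fun a : ℤ => a * x.den + x.num) := by
  intro a b h
  have h1 : a * (x.den : ℤ) = b * x.den := by simpa using h
  exact mul_right_cancel₀ (by exact_mod_cast x.den_nz) h1

theorem card_shq (A : Finset ℤ) (x : ℚ) : (shq A x).card = A.card :=
  card_image_of_injective _ (aff_inj x)

theorem card_filter_shq (A : Finset ℤ) (x : ℚ) (P : ℤ → Prop) [DecidablePred P] :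
    ((shq A x).filter P).card = (A.filter (fun a => P (a * x.den + x.num))).card := by
  classical
  unfold shq
  rw [filter_image, card_image_of_injective _ (aff_inj x)]

/-- the determinant of two fractions -/
def dt (x y : ℚ) : ℤ := x.num * y.den - y.num * x.den

theorem dt_ne_zero {x y : ℚ} (h : x ≠ y) : dt x y ≠ 0 := by
  intro h0
  apply h
  rw [Rat.eq_iff_mul_eq_mul]
  unfold dt at h0
  linarith

/-- the largest valuation of a determinant of two elements of `J` -/
def sepq (J : Finset ℚ) (q : ℕ) : ℕ := J.offDiag.sup (fun z => padicValInt q (dt z.1 z.2))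

theorem le_sepq {J : Finset ℚ} {q : ℕ} {x y : ℚ} (hx : x ∈ J) (hy : y ∈ J) (hxy : x ≠ y) :
    padicValInt q (dt x y) ≤ sepq J q :=
  le_sup (f := fun z : ℚ × ℚ => padicValInt q (dt z.1 z.2)) (b := (x, y))
    (mem_offDiag.2 ⟨hx, hy, hxy⟩)

theorem sum_sepq_le (J : Finset ℚ) (F : Finset ℕ) (hF : ∀ q ∈ F, q.Prime) {S : ℝ}
    (hS : ∀ x ∈ J, ∀ y ∈ J, x ≠ y → Real.log (dt x y).natAbs ≤ S) (hS0 : 0 ≤ S) :
    ∑ q ∈ F, (sepq J q : ℝ) * Real.log q ≤ (J.card : ℝ) ^ 2 * S := by
  classical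
  have h1 : ∀ q ∈ F, (sepq J q : ℝ) * Real.log q ≤
      ∑ z ∈ J.offDiag, (padicValInt q (dt z.1 z.2) : ℝ) * Real.log q := by
    intro q _
    rw [← sum_mul]
    apply mul_le_mul_of_nonneg_right _ (Real.log_natCast_nonneg q)
    have : sepq J q ≤ ∑ z ∈ J.offDiag, padicValInt q (dt z.1 z.2) := by
      apply Finset.sup_le
      intro z hz
      exact single_le_sum (f := fun z : ℚ × ℚ => padicValInt q (dt z.1 z.2))
        (fun _ _ => Nat.zero_le _) hz
    exact_mod_cast this
  calc ∑ q ∈ F, (sepq J q : ℝ) * Real.log q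
      ≤ ∑ q ∈ F, ∑ z ∈ J.offDiag, (padicValInt q (dt z.1 z.2) : ℝ) * Real.log q := sum_le_sum h1
    _ = ∑ z ∈ J.offDiag, ∑ q ∈ F, (padicValInt q (dt z.1 z.2) : ℝ) * Real.log q := sum_comm
    _ ≤ ∑ _z ∈ J.offDiag, S := by
        apply sum_le_sum
        intro z hz
        rw [mem_offDiag] at hz
        exact (sum_val_le F hF (dt_ne_zero hz.2.2)).trans (hS _ hz.1 _ hz.2.1 hz.2.2)
    _ = (J.offDiag.card : ℝ) * S := by rw [sum_const, nsmul_eq_mul]
    _ ≤ (J.card : ℝ) ^ 2 * S := by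
        apply mul_le_mul_of_nonneg_right _ hS0
        have : J.offDiag.card ≤ J.card * J.card := by
          rw [offDiag_card]
          exact Nat.sub_le _ _
        rw [sq]
        exact_mod_cast this

/-- at most `1 / κ` of the classes `-y` modulo `q ^ l` are popular -/
theorem card_popq_le {A : Finset ℤ} {J : Finset ℚ} (hA : A.Nonempty) {κ : ℝ} {q l : ℕ}
    (hq : q.Prime) (hl : sepq J q < l) (Y : Finset ℚ) (hY : Y ⊆ J)
    (hpop : ∀ y ∈ Y, κ * A.card ≤
      ((A.filter (fun a => (q : ℤ) ^ l ∣ a * y.den + y.num)).card : ℝ)) :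
    κ * Y.card ≤ 1 := by
  classical
  have hAp : (0 : ℝ) < A.card := by exact_mod_cast card_pos.2 hA
  have hdis : (Y : Set ℚ).PairwiseDisjoint
      (fun y => A.filter (fun a => (q : ℤ) ^ l ∣ a * y.den + y.num)) := by
    intro x hx y hy hxy
    rw [Function.onFun, disjoint_left]
    intro a ha ha'
    rw [mem_filter] at ha ha'
    have h1 : (q : ℤ) ^ l ∣ dt x y := by
      have := dvd_sub (ha.2.mul_right (y.den : ℤ)) (ha'.2.mul_right (x.den : ℤ))
      rwa [show (a * (x.den : ℤ) + x.num) * y.den - (a * (y.den : ℤ) + y.num) * x.den = dt x y by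
        unfold dt; ring] at this
    have := Fact.mk hq
    have h2 := (padicValInt_dvd_iff (p := q) l (dt x y)).1 h1
    rcases h2 with h2 | h2
    · exact dt_ne_zero hxy h2
    · have h3 := le_sepq (q := q) (hY (mem_coe.1 hx)) (hY (mem_coe.1 hy)) hxy
      omega
  have h1 : ∑ y ∈ Y, (A.filter (fun a => (q : ℤ) ^ l ∣ a * y.den + y.num)).card ≤ A.card := by
    rw [← card_biUnion (fun x hx y hy hxy => hdis hx hy hxy)]
    apply card_le_card
    intro a ha
    obtain ⟨y, _, hy⟩ := mem_biUnion.1 ha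
    exact (mem_filter.1 hy).1
  have h2 : ∑ _y ∈ Y, κ * (A.card : ℝ) ≤ A.card := by
    refine (sum_le_sum hpop).trans ?_
    exact_mod_cast h1
  rw [sum_const, nsmul_eq_mul] at h2
  have h3 : (κ * Y.card) * A.card ≤ 1 * A.card := by linarith
  exact le_of_mul_le_mul_right h3 hAp

/-- a popular zero class of one translate gives a popular leading digit of the other one -/
theorem transfer {q : ℕ} (hq : q.Prime) {x y : ℚ} (hxy : x ≠ y) {l m : ℕ} (hl : 1 ≤ l)
    (hm : padicValInt q (dt x y) + m ≤ l) {a₀ : ℤ} (ha₀ : (q : ℤ) ^ l ∣ a₀ * y.den + y.num) :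
    ∃ b : ℤ, b ≠ 0 ∧ ∀ a : ℤ, (q : ℤ) ^ l ∣ a * y.den + y.num →
      (q : ℤ) ^ (padicValInt q b + m) ∣ (a * x.den + x.num) - b := by
  have hqF := Fact.mk hq
  have hqi : Prime (q : ℤ) := Nat.prime_iff_prime_int.1 hq
  -- `q` does not divide the denominator of `y`
  have hw : ¬ (q : ℤ) ∣ (y.den : ℤ) := by
    intro h
    have h1 : (q : ℤ) ∣ a₀ * y.den + y.num := (dvd_pow_self _ (by omega)).trans ha₀
    have h2 : (q : ℤ) ∣ y.num := (dvd_add_right (h.mul_left a₀)).1 h1
    have h3 : q ∣ y.den := by exact_mod_cast h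
    have h4 : q ∣ y.num.natAbs := Int.natCast_dvd.1 h2
    have h5 := y.reduced
    exact hq.one_lt.ne' (Nat.dvd_one.1 (h5 ▸ Nat.dvd_gcd h4 h3))
  have hcop : IsCoprime ((y.den : ℤ)) ((q : ℤ) ^ l) :=
    (((hqi.coprime_iff_not_dvd).2 hw).symm).pow_right
  obtain ⟨v, t, hvt⟩ := hcop
  -- `v y.den = 1 - t q^l`
  have hv : ¬ (q : ℤ) ∣ v := by
    intro h
    have h1 : (q : ℤ) ∣ v * y.den + t * (q : ℤ) ^ l :=
      dvd_add (h.mul_right _) ((dvd_pow_self _ (by omega)).mul_left _)
    rw [hvt] at h1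
    exact hqi.not_isUnit (isUnit_of_dvd_one h1)
  have hv0 : v ≠ 0 := fun h => hv (h ▸ dvd_zero _)
  have hd0 := dt_ne_zero hxy
  have hval : padicValInt q (dt x y * v) = padicValInt q (dt x y) := by
    rw [padicValInt.mul hd0 hv0, padicValInt.eq_zero_of_not_dvd hv, add_zero]
  refine ⟨dt x y * v, mul_ne_zero hd0 hv0, ?_⟩
  intro a ha
  rw [hval]
  refine (pow_dvd_pow _ hm).trans ?_
  have h1 : (a * (x.den : ℤ) + x.num) - dt x y * v =
      (v * x.den) * (a * y.den + y.num) + (t * (a * (x.den : ℤ) + x.num)) * (q : ℤ) ^ l := by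
    have h2 : (a * (x.den : ℤ) + x.num) =
        (a * (x.den : ℤ) + x.num) * (v * y.den + t * (q : ℤ) ^ l) := by
      rw [hvt, mul_one]
    conv_lhs => rw [h2]
    unfold dt
    ring
  rw [h1]
  exact dvd_add (ha.mul_left _) (dvd_mul_left _ _)

theorem mixq_core {A : Finset ℤ} {J : Finset ℚ} (f : ℚ → ℚ) (hA : A.Nonempty) {κ : ℝ}
    (hκ0 : 0 < κ)
    (F : Finset ℕ) (hF : ∀ q ∈ F, q.Prime) (lam : ℚ → ℕ → ℕ)
    (hlam : ∀ y ∈ J, ∀ q ∈ F, ∀ l ≤ lam y q,
      κ * A.card ≤ ((A.filter (fun a => (q : ℤ) ^ l ∣ a * y.den + y.num)).card : ℝ))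
    {C : ℝ} (hC0 : 0 ≤ C)
    (hNZ : ∀ y ∈ J, ∀ mu : ℕ → ℕ, (∀ q ∈ F, mu q ≠ 0 → ∃ b : ℤ, b ≠ 0 ∧ κ * A.card ≤
      ((A.filter (fun a => (q : ℤ) ^ (padicValInt q b + mu q) ∣
        (a * (f y).den + (f y).num) - b)).card : ℝ)) →
      ∑ q ∈ F, (mu q : ℝ) * Real.log q ≤ C * ∑ q ∈ F, (lam y q : ℝ) * Real.log q)
    {S : ℝ} (hS : ∀ x ∈ J ∪ J.image f, ∀ y ∈ J ∪ J.image f, x ≠ y →
      Real.log (dt x y).natAbs ≤ S) (hS0 : 0 ≤ S)
    (hW : ∀ y ∈ J, 2 * ((2 * (J.card : ℝ)) ^ 2 * S) ≤ ∑ q ∈ F, (lam y q : ℝ) * Real.log q)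
    (hW0 : ∀ y ∈ J, 0 < ∑ q ∈ F, (lam y q : ℝ) * Real.log q) :
    (J.card : ℝ) ≤ 1 + 2 * C / κ := by
  classical
  have hAp : (0 : ℝ) < A.card := by exact_mod_cast card_pos.2 hA
  rcases J.eq_empty_or_nonempty with hJ | hJ
  · rw [hJ, card_empty, Nat.cast_zero]
    positivity
  obtain ⟨y₀, hy₀, hmin⟩ := exists_min_image J (fun x => ∑ q ∈ F, (lam x q : ℝ) * Real.log q) hJ
  set W : ℚ → ℝ := fun x => ∑ q ∈ F, (lam x q : ℝ) * Real.log q with hWdef
  set P : Finset ℚ := J ∪ J.image f with hP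
  have hJP : J ⊆ P := subset_union_left
  set x : ℚ := f y₀ with hx0
  have hx : x ∈ P := mem_union_right _ (mem_image_of_mem f hy₀)
  have hEJ : J.erase x ⊆ J := erase_subset _ _
  set mu : ℕ → ℕ := fun q => (J.erase x).sup (fun y => lam y q - sepq P q) with hmu
  have hq0 : ∀ q : ℕ, 0 ≤ Real.log q := fun q => Real.log_natCast_nonneg q
  have hmuW : ∑ q ∈ F, (mu q : ℝ) * Real.log q ≤ C * W y₀ := by
    apply hNZ y₀ hy₀ mu
    intro q hq hne
    have hEne : (J.erase x).Nonempty := by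
      rw [nonempty_iff_ne_empty]
      intro h0
      apply hne
      rw [hmu]
      simp only
      rw [h0, sup_empty]
      rfl
    obtain ⟨y, hy, hye⟩ := exists_mem_eq_sup (J.erase x) hEne (fun y => lam y q - sepq P q)
    have hyJ := hEJ hy
    have hyx := ne_of_mem_erase hy
    have hmuq : mu q = lam y q - sepq P q := hye
    have hlt : sepq P q < lam y q := by omega
    have hle : padicValInt q (dt x y) + mu q ≤ lam y q := by
      have := le_sepq (q := q) hx (hJP hyJ) (Ne.symm hyx)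
      omega
    have hpop := hlam y hyJ q hq (lam y q) le_rfl
    have hne' : (A.filter (fun a => (q : ℤ) ^ (lam y q) ∣ a * y.den + y.num)).Nonempty := by
      rw [← card_pos]
      have h1 : (0 : ℝ) < κ * A.card := by positivity
      exact_mod_cast h1.trans_le hpop
    obtain ⟨a₀, ha₀⟩ := hne'
    obtain ⟨b, hb0, hb⟩ := transfer (hF q hq) (Ne.symm hyx) (l := lam y q) (m := mu q)
      (by omega) hle (mem_filter.1 ha₀).2
    refine ⟨b, hb0, hpop.trans ?_⟩
    apply Nat.cast_le.2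
    apply card_le_card
    intro a ha
    rw [mem_filter] at ha ⊢
    exact ⟨ha.1, hb a ha.2⟩
  have hone : ∀ q ∈ F, κ * ∑ y ∈ J.erase x, ((lam y q - sepq P q : ℕ) : ℝ) ≤ mu q := by
    intro q hq
    have h1 : ∀ y ∈ J.erase x, ((lam y q - sepq P q : ℕ) : ℝ) =
        ∑ l ∈ Ioc (sepq P q) (sepq P q + mu q), if l ≤ lam y q then (1 : ℝ) else 0 := by
      intro y hy
      rw [← sum_filter, sum_const, nsmul_one]
      congr 1
      have h2 : lam y q - sepq P q ≤ mu q :=
        le_sup (f := fun y => lam y q - sepq P q) hy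
      have h3 : (Ioc (sepq P q) (sepq P q + mu q)).filter (fun l => l ≤ lam y q) =
          Ioc (sepq P q) (lam y q) := by
        ext l
        simp only [mem_filter, mem_Ioc]
        omega
      rw [h3, Nat.card_Ioc]
    rw [sum_congr rfl h1, sum_comm, mul_sum]
    have h4 : ∀ l ∈ Ioc (sepq P q) (sepq P q + mu q),
        κ * ∑ y ∈ J.erase x, (if l ≤ lam y q then (1 : ℝ) else 0) ≤ 1 := by
      intro l hl
      rw [← sum_filter, sum_const, nsmul_one]
      apply card_popq_le hA (hF q hq) (mem_Ioc.1 hl).1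
      · exact (filter_subset _ _).trans (hEJ.trans hJP)
      · intro y hy
        rw [mem_filter] at hy
        exact hlam y (hEJ hy.1) q hq l hy.2
    refine (sum_le_sum h4).trans ?_
    rw [sum_const, Nat.card_Ioc, nsmul_one]
    apply le_of_eq
    congr 1
    omega
  have hall : κ * ∑ y ∈ J.erase x, ∑ q ∈ F, ((lam y q - sepq P q : ℕ) : ℝ) * Real.log q ≤
      C * W y₀ := by
    rw [sum_comm, mul_sum]
    refine le_trans (sum_le_sum fun q hq => ?_) hmuW
    rw [← sum_mul, ← mul_assoc]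
    exact mul_le_mul_of_nonneg_right (hone q hq) (hq0 q)
  have hPc : (P.card : ℝ) ≤ 2 * J.card := by
    have h1 : P.card ≤ J.card + J.card :=
      (card_union_le _ _).trans (Nat.add_le_add_left card_image_le _)
    have h2 : (P.card : ℝ) ≤ J.card + J.card := by exact_mod_cast h1
    linarith
  have hsep : ∑ q ∈ F, (sepq P q : ℝ) * Real.log q ≤ (2 * (J.card : ℝ)) ^ 2 * S := by
    refine (sum_sepq_le P F hF hS hS0).trans ?_
    apply mul_le_mul_of_nonneg_right _ hS0
    exact pow_le_pow_left₀ (Nat.cast_nonneg _) hPc 2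
  have hlow : ∀ y ∈ J.erase x, W y₀ / 2 ≤
      ∑ q ∈ F, ((lam y q - sepq P q : ℕ) : ℝ) * Real.log q := by
    intro y hy
    have hyJ := hEJ hy
    have h1 : W y - ∑ q ∈ F, (sepq P q : ℝ) * Real.log q ≤
        ∑ q ∈ F, ((lam y q - sepq P q : ℕ) : ℝ) * Real.log q := by
      rw [hWdef]
      simp only
      rw [← sum_sub_distrib]
      apply sum_le_sum
      intro q _
      rw [← sub_mul]
      apply mul_le_mul_of_nonneg_right _ (hq0 q)
      have h2 : lam y q ≤ (lam y q - sepq P q) + sepq P q := by omega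
      have h3 : (lam y q : ℝ) ≤ ((lam y q - sepq P q : ℕ) : ℝ) + sepq P q := by exact_mod_cast h2
      linarith
    have h4 : W y₀ ≤ W y := hmin y hyJ
    have h5 : 2 * ((2 * (J.card : ℝ)) ^ 2 * S) ≤ W y₀ := hW y₀ hy₀
    linarith
  have hWx : 0 < W y₀ := hW0 y₀ hy₀
  have h6 : κ * (((J.card : ℝ) - 1) * (W y₀ / 2)) ≤ C * W y₀ := by
    refine le_trans ?_ hall
    apply mul_le_mul_of_nonneg_left _ hκ0.le
    have h7 := sum_le_sum hlow
    rw [sum_const, nsmul_eq_mul] at h7
    refine le_trans ?_ h7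
    apply mul_le_mul_of_nonneg_right _ (by positivity)
    have h8 : J.card - 1 ≤ (J.erase x).card := pred_card_le_card_erase
    have h9 : J.card ≤ (J.erase x).card + 1 := by omega
    have h10 : (J.card : ℝ) ≤ (J.erase x).card + 1 := by exact_mod_cast h9
    linarith
  have h7 : (κ * ((J.card : ℝ) - 1)) * (W y₀ / 2) ≤ (2 * C) * (W y₀ / 2) := by
    refine (le_of_eq ?_).trans (h6.trans (le_of_eq ?_)) <;> ring
  have h8 := le_of_mul_le_mul_right h7 (by positivity)
  have h9 : (J.card : ℝ) - 1 ≤ 2 * C / κ := by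
    rw [le_div_iff₀ hκ0]
    linarith
  linarith

/-- the translate of a set (cleared of denominators), without zero -/
def szq (A : Finset ℤ) (x : ℚ) : Finset ℤ := (shq A x).erase 0

theorem szq_zero (A : Finset ℤ) (x : ℚ) : (0 : ℤ) ∉ szq A x := notMem_erase _ _

theorem card_szq_le (A : Finset ℤ) (x : ℚ) : (szq A x).card ≤ A.card := by
  rw [← card_shq A x]
  exact card_le_card (erase_subset _ _)

theorem le_card_szq (A : Finset ℤ) (x : ℚ) : A.card ≤ (szq A x).card + 1 := by
  have : (shq A x).card - 1 ≤ (szq A x).card := pred_card_le_card_erase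
  rw [card_shq] at this
  omega

/-- a popular class of zero in the translate without zero is popular in the full set -/
theorem popq_full {A : Finset ℤ} {κ : ℝ} (hκ1 : κ ≤ 1) (y : ℚ) (q l : ℕ)
    (hl : l ≤ lev κ (szq A y) q) :
    κ * A.card ≤ ((A.filter (fun a => (q : ℤ) ^ l ∣ a * y.den + y.num)).card : ℝ) := by
  classical
  have h1 := dvd_lev hκ1 (szq A y) q hl
  have h2 : ((shq A y).filter (fun a => (q : ℤ) ^ l ∣ a)).card =
      (A.filter (fun a => (q : ℤ) ^ l ∣ a * y.den + y.num)).card := card_filter_shq A y _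
  by_cases h0 : (0 : ℤ) ∈ shq A y
  · have h3 : ((szq A y).filter (fun a => (q : ℤ) ^ l ∣ a)).card + 1 =
        ((shq A y).filter (fun a => (q : ℤ) ^ l ∣ a)).card := by
      unfold szq
      rw [filter_erase]
      exact card_erase_add_one (mem_filter.2 ⟨h0, dvd_zero _⟩)
    have h4 : (szq A y).card + 1 = A.card := by
      rw [← card_shq A y]
      exact card_erase_add_one h0
    rw [← h2, ← h3, ← h4]
    push_cast
    linarith
  · have h3 : szq A y = shq A y := erase_eq_of_notMem h0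
    rw [h3, card_shq, h2] at h1
    exact h1

/-- popular leading digits in the translate without zero -/
theorem pop_szq {A : Finset ℤ} {κ : ℝ} (hκ0 : 0 ≤ κ) (x : ℚ) (b : ℤ) (q e : ℕ)
    (hb : ¬ (q : ℤ) ^ e ∣ b)
    (h : κ * A.card ≤ ((A.filter (fun a => (q : ℤ) ^ e ∣ (a * x.den + x.num) - b)).card : ℝ)) :
    κ * (szq A x).card ≤ (((szq A x).filter (fun a => (q : ℤ) ^ e ∣ a - b)).card : ℝ) := by
  classical
  have h1 : ((shq A x).filter (fun a => (q : ℤ) ^ e ∣ a - b)).card =
      (A.filter (fun a => (q : ℤ) ^ e ∣ (a * x.den + x.num) - b)).card := card_filter_shq A x _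
  have h2 : (szq A x).filter (fun a => (q : ℤ) ^ e ∣ a - b) =
      (shq A x).filter (fun a => (q : ℤ) ^ e ∣ a - b) := by
    unfold szq
    rw [filter_erase]
    apply erase_eq_of_notMem
    intro h0
    apply hb
    have h3 := (mem_filter.1 h0).2
    rw [zero_sub] at h3
    exact (dvd_neg).1 h3
  rw [h2, h1]
  refine le_trans ?_ h
  apply mul_le_mul_of_nonneg_left _ hκ0
  exact_mod_cast card_szq_le A x

/-- the combinatorial core for pairs of translates, in terms of `W0` and `Pop` -/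
theorem mixq_lev {A : Finset ℤ} {J : Finset ℚ} (f : ℚ → ℚ) (hA : A.Nonempty) {κ : ℝ}
    (hκ0 : 0 < κ) (hκ1 : κ ≤ 1) {C : ℝ} (hC0 : 0 ≤ C)
    (hNZ : ∀ y ∈ J, ∀ (T : Finset ℕ) (e : ℕ → ℕ) (β : ℕ → ℤ), Pop κ (szq A (f y)) T e β →
      W1 T e β ≤ C * W0 κ (szq A y))
    {S : ℝ} (hS : ∀ x ∈ J ∪ J.image f, ∀ y ∈ J ∪ J.image f, x ≠ y →
      Real.log (dt x y).natAbs ≤ S) (hS0 : 0 ≤ S)
    (hW : ∀ y ∈ J, 2 * ((2 * (J.card : ℝ)) ^ 2 * S) ≤ W0 κ (szq A y))
    (hW1 : ∀ y ∈ J, 0 < W0 κ (szq A y)) :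
    (J.card : ℝ) ≤ 1 + 2 * C / κ := by
  classical
  set F : Finset ℕ := J.biUnion (fun x => prs (szq A x)) with hFdef
  have hF : ∀ p ∈ F, p.Prime := by
    intro p hp
    rw [hFdef, mem_biUnion] at hp
    obtain ⟨x, _, hx⟩ := hp
    unfold prs at hx
    rw [mem_biUnion] at hx
    obtain ⟨a, _, ha⟩ := hx
    exact Nat.prime_of_mem_primeFactors ha
  have hWF : ∀ x ∈ J, W0 κ (szq A x) = ∑ q ∈ F, (lev κ (szq A x) q : ℝ) * Real.log q := by
    intro x hx
    exact W0_eq _ (szq_zero A x) F hF (subset_biUnion_of_mem (fun x => prs (szq A x)) hx)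
  refine mixq_core (A := A) (J := J) f hA hκ0 F hF (fun x q => lev κ (szq A x) q)
    (fun x _ q _ l hl => popq_full hκ1 x q l hl) hC0
    (fun x hx mu hmu => ?_)
    hS hS0 (fun x hx => by rw [← hWF x hx]; exact hW x hx)
    (fun x hx => by rw [← hWF x hx]; exact hW1 x hx)
  have hmu' : ∀ q : ℕ, ∃ b : ℤ, q ∈ F → mu q ≠ 0 → b ≠ 0 ∧ κ * A.card ≤
      ((A.filter (fun a => (q : ℤ) ^ (padicValInt q b + mu q) ∣
        (a * (f x).den + (f x).num) - b)).card : ℝ) := by
    intro q
    by_cases hq : q ∈ F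
    · by_cases hm : mu q = 0
      · exact ⟨0, fun _ h => absurd hm h⟩
      · obtain ⟨b, hb⟩ := hmu q hq hm
        exact ⟨b, fun _ _ => hb⟩
    · exact ⟨0, fun h => absurd h hq⟩
  choose b hb using hmu'
  have hndvd : ∀ p ∈ F.filter (fun q => mu q ≠ 0),
      ¬ ((p : ℤ) ^ (padicValInt p (b p) + mu p) ∣ b p) := by
    intro p hp hdvd
    obtain ⟨hpF, hpm⟩ := mem_filter.1 hp
    have := Fact.mk (hF p hpF)
    rcases (padicValInt_dvd_iff (p := p) _ _).1 hdvd with h | h
    · exact (hb p hpF hpm).1 h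
    · omega
  have hpop : Pop κ (szq A (f x)) (F.filter (fun q => mu q ≠ 0))
      (fun q => padicValInt q (b q) + mu q) b := by
    refine ⟨fun p hp => hF p (mem_filter.1 hp).1, hndvd, ?_⟩
    intro p hp
    obtain ⟨hpF, hpm⟩ := mem_filter.1 hp
    exact pop_szq hκ0.le (f x) (b p) p _ (hndvd p hp) (hb p hpF hpm).2
  have h1 := hNZ x hx _ _ _ hpop
  have h2 : W1 (F.filter (fun q => mu q ≠ 0)) (fun q => padicValInt q (b q) + mu q) b =
      ∑ q ∈ F, (mu q : ℝ) * Real.log q := by
    unfold W1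
    rw [sum_filter]
    apply sum_congr rfl
    intro q _
    by_cases hm : mu q = 0
    · simp [hm]
    · rw [if_pos hm, Nat.add_sub_cancel_left]
  rw [h2] at h1
  rw [← hWF x hx]
  exact h1

/-- bound of the height -/
def Bd (X : ℝ) (x : ℚ) : Prop := |(x.num : ℝ)| ≤ X ∧ (x.den : ℝ) ≤ X

/-- the relation between translates given by the structure theorem -/
def RelQ (A : Finset ℤ) (κ C W : ℝ) (x y : ℚ) : Prop :=
  (∀ (T : Finset ℕ) (e : ℕ → ℕ) (β : ℕ → ℤ), Pop κ (szq A x) T e β →
    W1 T e β ≤ C * W0 κ (szq A y)) ∧ W ≤ W0 κ (szq A y)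

/-- the exceptional translates for one relation -/
def ExcQ (A : Finset ℤ) (κ C W X : ℝ) : Set ℚ :=
  {y | Bd X y ∧ ∃ x : ℚ, Bd X x ∧ RelQ A κ C W x y}

theorem card_ExcQ {A : Finset ℤ} (hA : A.Nonempty) {κ : ℝ} (hκ0 : 0 < κ) (hκ1 : κ ≤ 1) {C : ℝ}
    (hC0 : 0 ≤ C) {W X S : ℝ} (hX : Real.log (2 * X ^ 2) ≤ S) (hS0 : 0 ≤ S) {m : ℕ}
    (hm : 1 + 2 * C / κ ≤ m) (hW0 : 0 < W) (hW : 2 * ((2 * ((m : ℝ) + 1)) ^ 2 * S) ≤ W) :
    ∀ J : Finset ℚ, (J : Set ℚ) ⊆ ExcQ A κ C W X → J.card ≤ m := by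
  classical
  intro J₀ hJ₀
  by_contra hlt
  push Not at hlt
  obtain ⟨J, hJ, hJc⟩ := exists_subset_card_eq (s := J₀) (n := m + 1) (by omega)
  have hJ' : ∀ y ∈ J, Bd X y ∧ ∃ x : ℚ, Bd X x ∧ RelQ A κ C W x y := by
    intro y hy
    exact hJ₀ (mem_coe.2 (hJ hy))
  have hf : ∀ y : ℚ, ∃ x : ℚ, y ∈ J → Bd X x ∧ RelQ A κ C W x y := by
    intro y
    by_cases hy : y ∈ J
    · obtain ⟨x, hx⟩ := (hJ' y hy).2
      exact ⟨x, fun _ => hx⟩
    · exact ⟨0, fun h => absurd h hy⟩
  choose f hf using hf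
  have hbd : ∀ x ∈ J ∪ J.image f, Bd X x := by
    intro x hx
    rcases mem_union.1 hx with h | h
    · exact (hJ' x h).1
    · obtain ⟨y, hy, rfl⟩ := mem_image.1 h
      exact (hf y hy).1
  have hJr : (J.card : ℝ) = m + 1 := by rw [hJc]; push_cast; ring
  have key := mixq_lev (A := A) (J := J) f hA hκ0 hκ1 hC0
    (fun y hy => (hf y hy).2.1) (S := S)
    (fun x hx y hy hxy => by
      have h1 : ((dt x y).natAbs : ℝ) = |(x.num : ℝ) * y.den - y.num * x.den| := by
        rw [Nat.cast_natAbs]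
        unfold dt
        push_cast
        rfl
      have h2 : (0 : ℝ) < (dt x y).natAbs := by
        exact_mod_cast Int.natAbs_pos.2 (dt_ne_zero hxy)
      refine (Real.log_le_log h2 ?_).trans hX
      rw [h1]
      have h3 := abs_sub ((x.num : ℝ) * y.den) (y.num * x.den)
      rw [abs_mul, abs_mul, Nat.abs_cast, Nat.abs_cast] at h3
      obtain ⟨h4, h5⟩ := hbd x hx
      obtain ⟨h6, h7⟩ := hbd y hy
      have hX0 : 0 ≤ X := (abs_nonneg _).trans h4
      have h8 : |(x.num : ℝ)| * (y.den : ℝ) ≤ X * X :=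
        mul_le_mul h4 h7 (Nat.cast_nonneg _) hX0
      have h9 : |(y.num : ℝ)| * (x.den : ℝ) ≤ X * X :=
        mul_le_mul h6 h5 (Nat.cast_nonneg _) hX0
      have h10 : 2 * X ^ 2 = X * X + X * X := by ring
      rw [h10]
      linarith) hS0
    (fun y hy => by
      rw [hJr]
      exact hW.trans (hf y hy).2.2)
    (fun y hy => hW0.trans_le (hf y hy).2.2)
  rw [hJr] at key
  linarith

theorem exists_ExcQ {A : Finset ℤ} (hA : A.Nonempty) {κ : ℝ} (hκ0 : 0 < κ) (hκ1 : κ ≤ 1) {C : ℝ}
    (hC0 : 0 ≤ C) {W X S : ℝ} (hX : Real.log (2 * X ^ 2) ≤ S) (hS0 : 0 ≤ S) {m : ℕ}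
    (hm : 1 + 2 * C / κ ≤ m) (hW0 : 0 < W) (hW : 2 * ((2 * ((m : ℝ) + 1)) ^ 2 * S) ≤ W) :
    ∃ E : Finset ℚ, E.card ≤ m ∧ ∀ y ∈ ExcQ A κ C W X, y ∈ E := by
  classical
  have key := card_ExcQ hA hκ0 hκ1 hC0 hX hS0 hm hW0 hW
  have hfin : (ExcQ A κ C W X).Finite := by
    by_contra hinf
    obtain ⟨t, ht, htc⟩ := (show (ExcQ A κ C W X).Infinite from hinf).exists_subset_card_eq (m + 1)
    have := key t ht
    omega
  refine ⟨hfin.toFinset, key _ (by rw [Set.Finite.coe_toFinset]), ?_⟩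
  intro y hy
  rwa [Set.Finite.mem_toFinset]

/-- the product set of the rational translates is at least as large as the one of the integer
sets -/
theorem card_mixSet_le {k : ℕ} (A : Finset ℤ) (x : Fin k → ℚ) (B : Fin k → Finset ℤ)
    (hB : ∀ i, B i ⊆ shq A (x i)) :
    (mixSet B).card ≤ ((Fintype.piFinset (fun i => A.image (fun a : ℤ => (a : ℚ) + x i))).image
            (fun f : Fin k → ℚ => ∏ i, f i)).card := by
  classical
  have hD : (∏ i, ((x i).den : ℚ)) ≠ 0 := by
    rw [prod_ne_zero_iff]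
    intro i _
    exact_mod_cast (x i).den_nz
  apply card_le_card_of_injOn (fun z : ℤ => (z : ℚ) / ∏ i, ((x i).den : ℚ))
  · intro z hz
    rw [mem_coe] at hz ⊢
    unfold mixSet at hz
    obtain ⟨g, hg, rfl⟩ := mem_image.1 hz
    rw [Fintype.mem_piFinset] at hg
    have hg' : ∀ i, ∃ a ∈ A, a * ((x i).den : ℤ) + (x i).num = g i := by
      intro i
      have := hB i (hg i)
      unfold shq at this
      exact mem_image.1 this
    choose a ha hag using hg'
    rw [mem_image]
    refine ⟨fun i => (a i : ℚ) + x i, ?_, ?_⟩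
    · rw [Fintype.mem_piFinset]
      intro i
      exact mem_image_of_mem _ (ha i)
    · rw [eq_div_iff hD, ← prod_mul_distrib]
      push_cast
      apply prod_congr rfl
      intro i _
      rw [← hag i, add_mul, Rat.mul_den_eq_num]
      push_cast
      ring
  · intro z _ z' _ hzz
    have h1 : (z : ℚ) = z' := by
      have := hzz
      simp only at this
      rwa [div_left_inj' hD] at this
    exact_mod_cast h1

/-- **From the structure theorem for `k` sets to the theorem on rational translates, mixed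
form.** -/
theorem translatesMixQ (hNZ : NZMix) : TRMixQ := by
  classical
  intro k hk ε hε
  set ε' : ℝ := min ε 1 with hε'
  have hε'0 : 0 < ε' := lt_min hε one_pos
  have hε'1 : ε' ≤ 1 := min_le_right _ _
  have hk1 : (1 : ℝ) ≤ k := by exact_mod_cast hk
  have hk0 : (0 : ℝ) < k := by linarith
  obtain ⟨κ, C, c₁, hκ, hC, hc₁, hnz⟩ := hNZ k ε' hε'0
  -- the number of exceptions
  have hml : ∀ l : Fin k, ∃ m : ℕ, 1 + 2 * (2 * C * k) / κ l ≤ m := fun l => exists_nat_ge _
  choose ml hml using hml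
  set m : ℕ := ∑ l, ml l with hm
  have hmlm : ∀ l, (ml l : ℝ) ≤ m := by
    intro l
    have : ml l ≤ m := single_le_sum (f := ml) (fun _ _ => Nat.zero_le _) (mem_univ l)
    exact_mod_cast this
  set c₀ : ℝ := c₁ / (24 * k * ((m : ℝ) + 1) ^ 2) with hc₀
  have hc₀0 : 0 < c₀ := by positivity
  -- the threshold
  set L₀ : ℝ := max 16 (1 / c₁ + 1 / c₀) with hL₀
  set c : ℝ := min (c₁ / 2 ^ k) (min c₀ (Real.exp (-(k * L₀)))) with hc
  have hc0 : 0 < c := by
    rw [hc]
    apply lt_min _ (lt_min _ _) <;> positivity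
  have hcc₁ : c ≤ c₁ / 2 ^ k := min_le_left _ _
  have hcc₀ : c ≤ c₀ := (min_le_right _ _).trans (min_le_left _ _)
  have hce : c ≤ Real.exp (-(k * L₀)) := (min_le_right _ _).trans (min_le_right _ _)
  clear_value c
  refine ⟨m, c, hc0, ?_⟩
  intro A hA
  have hN1 : (1 : ℝ) ≤ A.card := by exact_mod_cast card_pos.2 hA
  have hNpos : (0 : ℝ) < A.card := by linarith
  set N : ℝ := (A.card : ℝ) with hN
  -- small `N`
  by_cases hL0 : Real.log N ≤ L₀
  · refine ⟨∅, by simp, ?_⟩
    intro x _ _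
    have h2 : (1 : ℝ) ≤ (((Fintype.piFinset
        (fun i => A.image (fun a : ℤ => (a : ℚ) + x i))).image
            (fun f : Fin k → ℚ => ∏ i, f i)).card : ℝ) := by
      have h3 : ((Fintype.piFinset (fun i => A.image (fun a : ℤ => (a : ℚ) + x i))).image
            (fun f : Fin k → ℚ => ∏ i, f i)).Nonempty := by
        apply Nonempty.image
        rw [Fintype.piFinset_nonempty]
        intro i
        exact hA.image _
      exact_mod_cast card_pos.2 h3
    refine le_trans ?_ h2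
    have hL0' : 0 ≤ Real.log N := Real.log_nonneg hN1
    calc c * N ^ ((k : ℝ) - ε) ≤ Real.exp (-(k * L₀)) * N ^ (k : ℝ) := by
          apply mul_le_mul hce _ (by positivity) (Real.exp_pos _).le
          exact Real.rpow_le_rpow_of_exponent_le hN1 (by linarith)
      _ = Real.exp (k * (Real.log N - L₀)) := by
          rw [Real.rpow_def_of_pos hNpos, ← Real.exp_add]
          congr 1
          ring
      _ ≤ Real.exp 0 := by
          apply Real.exp_le_exp.2
          have : Real.log N - L₀ ≤ 0 := by linarith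
          nlinarith
      _ = 1 := Real.exp_zero
  push Not at hL0
  have hL16 : 16 ≤ Real.log N := (le_max_left _ _).trans hL0.le
  have hL2 : 1 / c₁ + 1 / c₀ ≤ Real.log N := (le_max_right _ _).trans hL0.le
  have hNexp : Real.exp 16 ≤ N := by rwa [← Real.le_log_iff_exp_le hNpos]
  obtain ⟨-, hLL1, -⟩ := half_log hNexp (M := N) (by linarith)
  have hi1 : 0 < 1 / c₁ := by positivity
  have hi0 : 0 < 1 / c₀ := by positivity
  set LL : ℝ := Real.log N * Real.log (Real.log N) with hLL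
  have hLLL : Real.log N ≤ LL := by
    rw [hLL]
    nlinarith
  have hLLc₁ : 1 ≤ c₁ * LL := by
    have h1 : 1 / c₁ ≤ LL := by linarith
    rw [div_le_iff₀ hc₁] at h1
    linarith
  have hLLc₀ : 1 ≤ c₀ * LL := by
    have h1 : 1 / c₀ ≤ LL := by linarith
    rw [div_le_iff₀ hc₀0] at h1
    linarith
  have hLL0 : 0 < LL := by linarith
  have hN16 : 2 ≤ N := by
    have := Real.add_one_le_exp (16 : ℝ)
    linarith
  set X : ℝ := N ^ (c * Real.log (Real.log N)) with hX
  have hXpos : 0 < X := Real.rpow_pos_of_pos hNpos _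
  have hlogX : Real.log (2 * X ^ 2) ≤ 3 * (c₀ * LL) := by
    rw [Real.log_mul (by norm_num) (by positivity), Real.log_pow, hX, Real.log_rpow hNpos]
    have h1 : ((2 : ℕ) : ℝ) * (c * Real.log (Real.log N) * Real.log N) = 2 * (c * LL) := by
      rw [hLL]; push_cast; ring
    rw [h1]
    have h2 : c * LL ≤ c₀ * LL := mul_le_mul_of_nonneg_right hcc₀ hLL0.le
    have h3 := Real.log_two_lt_d9
    linarith
  -- the exceptional set
  have hE : ∀ l : Fin k, ∃ E : Finset ℚ, E.card ≤ ml l ∧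
      ∀ y ∈ ExcQ A (κ l) (2 * C * k) (c₁ / k * LL) X, y ∈ E := by
    intro l
    refine exists_ExcQ hA (hκ l).1 (hκ l).2 (by positivity) hlogX (by positivity) (hml l)
      (by positivity) ?_
    calc 2 * ((2 * ((ml l : ℝ) + 1)) ^ 2 * (3 * (c₀ * LL)))
        ≤ 2 * ((2 * ((m : ℝ) + 1)) ^ 2 * (3 * (c₀ * LL))) := by
          have := hmlm l
          gcongr
      _ = (24 * ((m : ℝ) + 1) ^ 2 * c₀) * LL := by ring
      _ = c₁ / k * LL := by
          congr 1
          rw [hc₀]
          field_simp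
  choose El hElc hEl using hE
  refine ⟨univ.biUnion El, ?_, ?_⟩
  · refine card_biUnion_le.trans ?_
    rw [hm]
    exact sum_le_sum fun l _ => hElc l
  · intro x hxX hxE
    set E : Finset ℚ := univ.biUnion El with hEdef
    by_contra hcon
    push Not at hcon
    -- the position in `E` is moved to the end
    obtain ⟨k', hk'⟩ : ∃ k', k = k' + 1 := ⟨k - 1, by omega⟩
    have hlast : k - 1 < k := by omega
    set last : Fin k := ⟨k - 1, hlast⟩ with hlastdef
    obtain ⟨i₀, hi₀⟩ : ∃ i₀ : Fin k, ∀ i, x i ∈ E → i = i₀ := by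
      by_cases h : ∃ i, x i ∈ E
      · obtain ⟨i, hi⟩ := h
        refine ⟨i, fun j hj => ?_⟩
        exact card_le_one.1 hxE j (mem_filter.2 ⟨mem_univ _, hj⟩) i
          (mem_filter.2 ⟨mem_univ _, hi⟩)
      · exact ⟨last, fun i hi => absurd ⟨i, hi⟩ h⟩
    set σ : Equiv.Perm (Fin k) := Equiv.swap i₀ last with hσ
    have hσlast : σ last = i₀ := Equiv.swap_apply_right _ _
    set B : Fin k → Finset ℤ := fun i => szq A (x (σ i)) with hB
    have hBc : ∀ i, N / 2 ≤ ((B i).card : ℝ) := by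
      intro i
      have h1 : N ≤ ((B i).card : ℝ) + 1 := by
        rw [hN]
        exact_mod_cast le_card_szq A (x (σ i))
      linarith
    have hBne : ∀ i, (B i).Nonempty := by
      intro i
      rw [← card_pos]
      have h1 := hBc i
      have h2 : (0 : ℝ) < ((B i).card : ℝ) := by linarith
      exact_mod_cast h2
    have hsub : ((mixSet B).card : ℝ) ≤
        (((Fintype.piFinset (fun i => A.image (fun a : ℤ => (a : ℚ) + x i))).image
            (fun f : Fin k → ℚ => ∏ i, f i)).card : ℝ) := by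
      apply Nat.cast_le.2
      have h1 : mixSet B = mixSet (fun i => szq A (x i)) := mixSet_perm (fun i => szq A (x i)) σ
      rw [h1]
      exact card_mixSet_le A x _ (fun i => erase_subset _ _)
    have hprod : (N / 2) ^ k ≤ ∏ l, ((B l).card : ℝ) := by
      have h1 : (N / 2) ^ k = ∏ _l : Fin k, (N / 2) := by
        rw [prod_const, card_univ, Fintype.card_fin]
      rw [h1]
      exact prod_le_prod (fun _ _ => by positivity) fun l _ => hBc l
    have hlt : ((mixSet B).card : ℝ) < c₁ * ((A.card : ℕ) : ℝ) ^ (-ε') *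
        ∏ l, ((B l).card : ℝ) := by
      refine (hsub.trans_lt hcon).trans_le ?_
      calc c * N ^ ((k : ℝ) - ε) ≤ c₁ / 2 ^ k * N ^ ((k : ℝ) - ε') := by
            apply mul_le_mul hcc₁ _ (by positivity) (by positivity)
            apply Real.rpow_le_rpow_of_exponent_le hN1
            have : ε' ≤ ε := min_le_left _ _
            linarith
        _ = c₁ * N ^ (-ε') * (N / 2) ^ k := by
            rw [show (k : ℝ) - ε' = -ε' + k by ring, Real.rpow_add hNpos, Real.rpow_natCast,
              div_pow]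
            ring
        _ ≤ c₁ * N ^ (-ε') * ∏ l, ((B l).card : ℝ) := by
            apply mul_le_mul_of_nonneg_left hprod (by positivity)
    obtain ⟨l, hl0, hl1, hl2⟩ := hnz A.card B hBne (fun i => szq_zero A _)
      (fun i => card_szq_le A _) hlt
    have hWb : 0 < W0b (κ l) B l := by
      have : 0 < c₁ * LL := by positivity
      exact this.trans_le hl2
    have hWb1 : 1 ≤ W0b (κ l) B l := hLLc₁.trans hl2
    -- the largest of the weights
    obtain ⟨l', hl', hmax⟩ : ∃ l' : Fin k, l' < l ∧ W0b (κ l) B l ≤ k * W0 (κ l) (B l') := by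
      by_contra hno
      push Not at hno
      have h1 : W0b (κ l) B l ≤ ∑ l' ∈ univ.filter (fun l' : Fin k => l' < l),
          W0b (κ l) B l / k := by
        conv_lhs => unfold W0b
        apply sum_le_sum
        intro l' hl'
        rw [le_div_iff₀ hk0, mul_comm]
        exact (hno l' (mem_filter.1 hl').2).le
      rw [sum_const, nsmul_eq_mul] at h1
      have h2 : (univ.filter (fun l' : Fin k => l' < l)).card < k := by
        have h3 : univ.filter (fun l' : Fin k => l' < l) ⊂ univ := by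
          rw [filter_ssubset]
          exact ⟨l, mem_univ _, lt_irrefl _⟩
        have h4 := card_lt_card h3
        rwa [card_univ, Fintype.card_fin] at h4
      have h3 : ((univ.filter (fun l' : Fin k => l' < l)).card : ℝ) < k := by exact_mod_cast h2
      have h4 : ((univ.filter (fun l' : Fin k => l' < l)).card : ℝ) * (W0b (κ l) B l / k) <
          k * (W0b (κ l) B l / k) := mul_lt_mul_of_pos_right h3 (by positivity)
      have h5 : (k : ℝ) * (W0b (κ l) B l / k) = W0b (κ l) B l := by field_simp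
      linarith
    have hrel : RelQ A (κ l) (2 * C * k) (c₁ / k * LL) (x (σ l)) (x (σ l')) := by
      constructor
      · intro T e β hP
        refine (hl1 T e β hP).trans ?_
        calc C * (W0b (κ l) B l + 1) ≤ C * (2 * W0b (κ l) B l) := by
              apply mul_le_mul_of_nonneg_left _ hC.le
              linarith
          _ ≤ C * (2 * (k * W0 (κ l) (B l'))) := by
              apply mul_le_mul_of_nonneg_left _ hC.le
              linarith
          _ = 2 * C * k * W0 (κ l) (szq A (x (σ l'))) := by rw [hB]; ring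
      · have h1 : c₁ * LL ≤ k * W0 (κ l) (B l') := hl2.trans hmax
        rw [div_mul_eq_mul_div, div_le_iff₀ hk0, mul_comm _ (k : ℝ)]
        exact h1
    have hyE : x (σ l') ∈ E := by
      rw [hEdef, mem_biUnion]
      exact ⟨l, mem_univ _, hEl l _ ⟨hxX _, x (σ l), hxX _, hrel⟩⟩
    have h1 := hi₀ _ hyE
    rw [← hσlast] at h1
    have h2 := σ.injective h1
    have h3 : l'.val < l.val := hl'
    have h4 := l.isLt
    rw [h2] at h3
    simp only [hlastdef] at h3
    omega

end Pool.Agent.Helper34.TR
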