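import Pool.Agent.Helper34.TR.CorP
import Pool.Agent.Helper34.TR.Count
import Pool.Agent.Helper34.TR.Pf
import Pool.Agent.Helper26.TR.NZ

set_option autoImplicit false

/-!
MP_120218_co, project TR, general form: the structure theorem for `k + 1` sets.  The last set is
arbitrary; for it the alternative is that the number of `P`-free parts is small.
-/

open Finset

namespace Pool.Agent.Helper34.TR

open Pool.Agent.Helper26.TR

/-- structure theorem for `k + 1` sets, with slack `θ`, the last set being arbitrary -/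
def NZG : Prop :=
  ∀ k : ℕ, ∀ ε θ : ℝ, 0 < ε → 0 < θ → θ ≤ 1 → ∃ (κ : Fin (k + 1) → ℝ) (C c ζ : ℝ),
    (∀ l, 0 < κ l ∧ κ l ≤ 1) ∧ 0 < C ∧ 0 < c ∧ 0 < ζ ∧
    ∀ (N : ℕ) (A : Fin (k + 1) → Finset ℤ), (∀ l, (A l).Nonempty) → (∀ l, (0 : ℤ) ∉ A l) →
      (∀ l, (A l).card ≤ N) →
      ((mixSet A).card : ℝ) < c * (N : ℝ) ^ (-ε) * ∏ l, ((A l).card : ℝ) →
      (∃ l : Fin (k + 1), 0 < (l : ℕ) ∧ (l : ℕ) < k ∧
        (∀ (T : Finset ℕ) (e : ℕ → ℕ) (β : ℕ → ℤ), Pop (θ * κ l) (A l) T e β →
          W1 T e β ≤ C * (W0b (κ l) A l + 1)) ∧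
        c * (Real.log N * Real.log (Real.log N)) ≤ W0b (κ l) A l) ∨
      (∀ P : Finset ℕ, (∀ q ∈ P, q.Prime) →
        Wt (bd A) (fun q => if q ∈ P then 0 else lamS κ A (Fin.last k) q) <
          c * (Real.log N * Real.log (Real.log N)) →
        (((A (Fin.last k)).image (pf P)).card : ℝ) ≤
          (N : ℝ) ^ (-ζ) * ((A (Fin.last k)).card : ℝ))

/-- one representative of every value -/
theorem exists_reps (s : Finset ℤ) (f : ℤ → ℤ) :
    ∃ u ⊆ s, Set.InjOn f u ∧ u.card = (s.image f).card := by
  classical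
  obtain ⟨u, hu, hb⟩ := Set.exists_subset_bijOn (s : Set ℤ) f
  have hfin : u.Finite := (Finset.finite_toSet s).subset hu
  have hinj : Set.InjOn f (hfin.toFinset : Set ℤ) := by
    rw [Set.Finite.coe_toFinset]
    exact hb.injOn
  refine ⟨hfin.toFinset, ?_, hinj, ?_⟩
  · intro x hx
    rw [Set.Finite.mem_toFinset] at hx
    exact hu hx
  · rw [← card_image_of_injOn hinj]
    congr 1
    apply Finset.coe_injective
    rw [coe_image, coe_image, Set.Finite.coe_toFinset]
    exact hb.image_eq

open Classical in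
/-- the last stage: a set on which `pf P` is injective has small close classes for suitable
prices -/
theorem last_stage {K : ℕ} {τ L : ℝ} (hτ : 0 < τ) (hL : 0 < L) {n : ℕ} {lam : ℕ → ℕ}
    (hlam : ∀ q, n ≤ q → lam q = 0) {P : Finset ℕ} (hP : ∀ q ∈ P, q.Prime) {G Y : Finset ℤ}
    (hG0 : (0 : ℤ) ∉ G) (hYG : Y ⊆ G) (hinj : Set.InjOn (pf P) Y) {M : ℕ}
    (hcount : ∀ z : ℤ, (((G.image (pf P)).filter (fun z' =>
      Close (Ures K (2 * τ) L (Wt n (fun q => if q ∈ P then 0 else lam q))
        (fun q => if q ∈ P then 0 else lam q)) z z')).card) ≤ M) :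
    ∃ c : ℕ → ℝ, (∀ q : ℕ, q.Prime → 0 < c q) ∧ ∀ b ∈ Y, {b' : ℤ | b' ∈ Y ∧
      Pool.Agent.Helper84.TR.Close
        (Pool.Agent.Helper84.TR.UresC K τ L (WC n c lam) c lam) b b'}.ncard ≤ M := by
  classical
  set lamP : ℕ → ℕ := fun q => if q ∈ P then 0 else lam q with hlamP
  set lamQ : ℕ → ℕ := fun q => if q ∈ P then lam q else 0 with hlamQ
  have hWt0 : ∀ f : ℕ → ℕ, 0 ≤ Wt n f := by
    intro f
    unfold Wt
    exact sum_nonneg fun q _ => mul_nonneg (Nat.cast_nonneg _) (Real.log_natCast_nonneg _)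
  set G0 : ℝ := if Wt n lamP = 0 then 1 else Wt n lamP with hG0def
  set G1 : ℝ := if Wt n lamQ = 0 then 1 else Wt n lamQ with hG1def
  have hG0pos : 0 < G0 := by
    rw [hG0def]
    split_ifs with h
    · exact one_pos
    · exact lt_of_le_of_ne (hWt0 _) (Ne.symm h)
  have hG1pos : 0 < G1 := by
    rw [hG1def]
    split_ifs with h
    · exact one_pos
    · exact lt_of_le_of_ne (hWt0 _) (Ne.symm h)
  have hG0' : Wt n lamP / G0 ≤ 1 := by
    rw [hG0def]
    split_ifs with h
    · rw [h]; norm_num
    · rw [div_self h]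
  have hG1' : Wt n lamQ / G1 ≤ 1 := by
    rw [hG1def]
    split_ifs with h
    · rw [h]; norm_num
    · rw [div_self h]
  set c : ℕ → ℝ := fun q => if q ∈ P then Real.log q / G1 else Real.log q / G0 with hc
  have hcpos : ∀ q : ℕ, q.Prime → 0 < c q := by
    intro q hq
    have hlog : 0 < Real.log (q : ℝ) := Real.log_pos (by exact_mod_cast hq.one_lt)
    rw [hc]
    simp only
    split_ifs
    · exact div_pos hlog hG1pos
    · exact div_pos hlog hG0pos
  have hWC : WC n c lam ≤ 2 := by
    have h1 : WC n c lam = Wt n lamQ / G1 + Wt n lamP / G0 := by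
      unfold WC Wt
      rw [sum_div, sum_div, ← sum_add_distrib]
      apply sum_congr rfl
      intro q _
      simp only [hc, hlamP, hlamQ]
      by_cases hq : q ∈ P
      · simp only [if_pos hq]
        push_cast
        ring
      · simp only [if_neg hq]
        push_cast
        ring
    rw [h1]
    linarith
  refine ⟨c, hcpos, ?_⟩
  intro b hb
  have hb0 : b ≠ 0 := fun h => hG0 (h ▸ hYG hb)
  refine le_trans ?_ (hcount (pf P b))
  rw [← Set.ncard_coe_finset]
  apply Set.ncard_le_ncard_of_injOn (pf P)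
  · rintro b' ⟨hb', hclose⟩
    have hb'0 : b' ≠ 0 := fun h => hG0 (h ▸ hYG hb')
    rw [mem_coe, mem_filter]
    refine ⟨mem_image_of_mem _ (hYG hb'), ?_⟩
    intro q hq
    rw [val_pf hP hb0 hq, val_pf hP hb'0 hq]
    by_cases hqP : q ∈ P
    · simp only [if_pos hqP]
      have h0 : lamP q = 0 := by simp only [hlamP, if_pos hqP]
      unfold Ures
      rw [if_pos h0]
      norm_num
    · simp only [if_neg hqP]
      refine lt_of_lt_of_le (hclose q hq) ?_
      unfold Pool.Agent.Helper84.TR.UresC Ures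
      simp only [hlamP, if_neg hqP]
      by_cases hl : lam q = 0
      · simp [hl]
      · rw [if_neg hl, if_neg hl]
        have hqn : q < n := by
          by_contra h
          exact hl (hlam q (not_lt.1 h))
        have hlog : 0 < Real.log (q : ℝ) := Real.log_pos (by exact_mod_cast hq.one_lt)
        have hl1 : (1 : ℝ) ≤ lam q := by exact_mod_cast Nat.one_le_iff_ne_zero.2 hl
        have hterm : (lam q : ℝ) * Real.log q ≤ Wt n lamP := by
          unfold Wt
          have h3 : (lam q : ℝ) * Real.log q = (lamP q : ℝ) * Real.log q := by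
            simp only [hlamP, if_neg hqP]
          rw [h3]
          exact single_le_sum (f := fun q : ℕ => (lamP q : ℝ) * Real.log q)
            (fun i _ => mul_nonneg (Nat.cast_nonneg _) (Real.log_natCast_nonneg i))
            (mem_filter.2 ⟨mem_range.2 hqn, hq⟩)
        have hWpos : 0 < Wt n lamP := by nlinarith
        have hG0eq : G0 = Wt n lamP := by
          rw [hG0def, if_neg hWpos.ne']
        have hcq : c q = Real.log q / Wt n lamP := by
          simp only [hc, if_neg hqP, hG0eq]
        have h4 : τ * WC n c lam / (L * c q) ≤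
            2 * τ * Wt n (fun q => if q ∈ P then 0 else lam q) / (L * Real.log q) := by
          rw [hcq]
          have h5 : τ * WC n c lam / (L * (Real.log q / Wt n lamP)) =
              (WC n c lam) * (τ * Wt n lamP / (L * Real.log q)) := by
            field_simp
          rw [h5]
          have h6 : 2 * τ * Wt n (fun q => if q ∈ P then 0 else lam q) / (L * Real.log q) =
              2 * (τ * Wt n lamP / (L * Real.log q)) := by
            rw [hlamP]
            ring
          rw [h6]
          apply mul_le_mul_of_nonneg_right hWC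
          positivity
        have h7 := Nat.ceil_mono h4
        push_cast
        have h8 : ((⌈τ * WC n c lam / (L * c q)⌉₊ : ℕ) : ℤ) ≤
            ((⌈2 * τ * Wt n (fun q => if q ∈ P then 0 else lam q) / (L * Real.log q)⌉₊ : ℕ) : ℤ) := by
          exact_mod_cast h7
        linarith
  · intro x hx y hy hxy
    exact hinj hx.1 hy.1 hxy

theorem nzG : NZG := by
  classical
  intro k ε θ hε hθ hθ1
  set ζ : ℝ := ε / (8 * (k + 2)) with hζ
  have hk2 : (0 : ℝ) < (k : ℝ) + 2 := by positivity
  have hζ0 : 0 < ζ := by positivity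
  obtain ⟨κ₀, K, τ, C, hκ₀, hκ₀1, hK, hτ, hC, hmain⟩ := corP (k + 1) ζ hζ0
  obtain ⟨δ, n₀, hδ, hcnt⟩ := countS K τ ζ hτ hζ0
  obtain ⟨δ', n₀', hδ', hcnt'⟩ := countS K (2 * τ) ζ (by positivity) hζ0
  set ρ : ℝ := θ * κ₀ / 2 with hρ
  have hρ0 : 0 < ρ := by positivity
  have hρ1 : ρ ≤ 1 := by
    have : θ * κ₀ ≤ 1 * 1 := mul_le_mul hθ1 hκ₀1 hκ₀.le zero_le_one
    rw [hρ]; linarith
  have hρκ : ρ ≤ κ₀ := by
    have : θ * κ₀ ≤ 1 * κ₀ := mul_le_mul_of_nonneg_right hθ1 hκ₀.le
    rw [hρ]; linarith
  set κ : Fin (k + 1) → ℝ := fun l => ρ ^ ((l : ℕ) + 1) with hκ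
  have hκpos : ∀ l, 0 < κ l := fun l => by simp only [hκ]; positivity
  have hκle : ∀ l, κ l ≤ 1 := fun l => by
    simp only [hκ]
    exact pow_le_one₀ hρ0.le hρ1
  have hκle' : ∀ l, κ l ≤ κ₀ := fun l => by
    simp only [hκ]
    calc ρ ^ ((l : ℕ) + 1) ≤ ρ ^ 1 :=
          pow_le_pow_of_le_one hρ0.le hρ1 (by omega)
      _ = ρ := pow_one _
      _ ≤ κ₀ := hρκ
  have hκstep : ∀ l l' : Fin (k + 1), l' < l → κ l ≤ κ₀ * (θ * κ l' / 2) := by
    intro l l' hl
    simp only [hκ]
    have h1 : κ₀ * (θ * ρ ^ ((l' : ℕ) + 1) / 2) = ρ ^ ((l' : ℕ) + 1 + 1) := by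
      rw [pow_succ ρ ((l' : ℕ) + 1), hρ]; ring
    rw [h1]
    apply pow_le_pow_of_le_one hρ0.le hρ1
    have : (l' : ℕ) < l := hl
    omega
  set κm : ℝ := θ * ρ ^ (k + 2) with hκm
  have hκm0 : 0 < κm := by positivity
  have hκml : ∀ l, κm ≤ θ * κ l := fun l => by
    simp only [hκ, hκm]
    apply mul_le_mul_of_nonneg_left _ hθ.le
    exact pow_le_pow_of_le_one hρ0.le hρ1 (by have := l.2; omega)
  set B : ℝ := 8 / κm ^ 2 with hB
  have hB0 : 0 < B := by positivity
  set C' : ℝ := 8 * (2 * C + 1) / κm ^ 2 with hC'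
  have hC'0 : 0 < C' := by positivity
  -- a threshold for `N`
  obtain ⟨n₁, hn₁⟩ : ∃ n₁ : ℕ, ∀ N : ℕ, n₁ ≤ N → B ≤ (N : ℝ) ^ ζ := by
    have ht : Filter.Tendsto (fun N : ℕ => (N : ℝ) ^ ζ) Filter.atTop Filter.atTop :=
      (tendsto_rpow_atTop hζ0).comp tendsto_natCast_atTop_atTop
    obtain ⟨n₁, hn₁⟩ := (Filter.tendsto_atTop.1 ht B).exists_forall_of_atTop
    exact ⟨n₁, hn₁⟩
  set n₂ : ℕ := max (max (max n₀ n₀') n₁) 16 with hn₂
  set D : ℝ := ∑ l, Real.log (θ * κ l / 2) - (k + 1) * (Real.log 2 + 1) with hD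
  set c : ℝ := min (min (min δ δ') 1) (min (1 / (n₂ : ℝ) ^ (k + 1)) (Real.exp D)) with hc
  have hn₂0 : (0 : ℝ) < n₂ := by
    have : 0 < n₂ := by omega
    exact_mod_cast this
  have hc0 : 0 < c := lt_min (lt_min (lt_min hδ hδ') one_pos)
    (lt_min (by positivity) (Real.exp_pos _))
  have hcδ : c ≤ δ := (min_le_left _ _).trans ((min_le_left _ _).trans (min_le_left _ _))
  have hcδ' : c ≤ δ' := (min_le_left _ _).trans ((min_le_left _ _).trans (min_le_right _ _))
  have hc1 : c ≤ 1 := (min_le_left _ _).trans (min_le_right _ _)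
  have hcn : c ≤ 1 / (n₂ : ℝ) ^ (k + 1) := (min_le_right _ _).trans (min_le_left _ _)
  have hcD : c ≤ Real.exp D := (min_le_right _ _).trans (min_le_right _ _)
  clear_value c
  refine ⟨κ, C', c, ζ, fun l => ⟨hκpos l, hκle l⟩, hC'0, hc0, hζ0, ?_⟩
  intro N A hAne hA0 hAN hmix
  by_contra hcon
  rw [not_or] at hcon
  obtain ⟨hcon1, hcon2⟩ := hcon
  push Not at hcon1 hcon2
  obtain ⟨P, hP, hPW, hPcard⟩ := hcon2
  have hmixne : (mixSet A).Nonempty := by
    unfold mixSet
    apply Nonempty.image
    rw [Fintype.piFinset_nonempty]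
    exact hAne
  have hmix1 : (1 : ℝ) ≤ ((mixSet A).card : ℝ) := by exact_mod_cast card_pos.2 hmixne
  have hprodpos : (0 : ℝ) < ∏ l, ((A l).card : ℝ) :=
    prod_pos fun l _ => by exact_mod_cast card_pos.2 (hAne l)
  have hN1 : 1 ≤ N := by
    by_contra h
    have hN0 : N = 0 := by omega
    subst hN0
    rw [Nat.cast_zero, Real.zero_rpow (by linarith)] at hmix
    linarith [hmix1]
  have hNpos : (0 : ℝ) < N := by exact_mod_cast hN1
  have hNε : (N : ℝ) ^ (-ε) ≤ 1 := by
    apply Real.rpow_le_one_of_one_le_of_nonpos (by exact_mod_cast hN1) (by linarith)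
  rcases lt_or_ge N n₂ with hlt | hge
  · -- small `N`
    have h1 : ∏ l, ((A l).card : ℝ) ≤ (n₂ : ℝ) ^ (k + 1) := by
      calc ∏ l, ((A l).card : ℝ) ≤ ∏ _l : Fin (k + 1), (n₂ : ℝ) := by
            apply prod_le_prod
            · intro l _; positivity
            · intro l _
              have := hAN l
              exact_mod_cast this.trans hlt.le
        _ = (n₂ : ℝ) ^ (k + 1) := by rw [prod_const, card_univ, Fintype.card_fin]
    have h2 : c * (N : ℝ) ^ (-ε) * ∏ l, ((A l).card : ℝ) ≤ 1 := by
      calc c * (N : ℝ) ^ (-ε) * ∏ l, ((A l).card : ℝ)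
          ≤ (1 / (n₂ : ℝ) ^ (k + 1)) * 1 * (n₂ : ℝ) ^ (k + 1) := by
            apply mul_le_mul _ h1 hprodpos.le (by positivity)
            exact mul_le_mul hcn hNε (by positivity) (by positivity)
        _ = 1 := by field_simp
    linarith
  · have hNn₀ : n₀ ≤ N := by omega
    have hNn₀' : n₀' ≤ N := by omega
    have hNn₁ : n₁ ≤ N := by omega
    have hN16 : 16 ≤ N := by omega
    set L : ℝ := Real.log N with hL
    have hL1 : 1 ≤ L := by
      rw [hL, Real.le_log_iff_exp_le hNpos]
      have h3 : Real.exp 1 < 2.7182818286 := Real.exp_one_lt_d9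
      have h4 : (16 : ℝ) ≤ N := by exact_mod_cast hN16
      linarith
    have hLL : 0 ≤ L * Real.log L := mul_nonneg (by linarith) (Real.log_nonneg hL1)
    have hNζ : B ≤ (N : ℝ) ^ ζ := hn₁ N hNn₁
    have hNζ1 : (1 : ℝ) ≤ (N : ℝ) ^ ζ := Real.one_le_rpow (by exact_mod_cast hN1) hζ0.le
    have hNζm1 : (N : ℝ) ^ (-ζ) ≤ 1 :=
      Real.rpow_le_one_of_one_le_of_nonpos (by exact_mod_cast hN1) (by linarith)
    have hNζm0 : (0 : ℝ) < (N : ℝ) ^ (-ζ) := Real.rpow_pos_of_pos hNpos _
    set M : ℕ := ⌈(N : ℝ) ^ ζ⌉₊ with hM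
    have hMle : (N : ℝ) ^ ζ ≤ M := Nat.le_ceil _
    have hM1 : 1 ≤ M := by
      have : (1 : ℝ) ≤ M := hNζ1.trans hMle
      exact_mod_cast this
    have hlogM : Real.log M ≤ ζ * L + Real.log 2 := by
      have h5 : (M : ℝ) ≤ 2 * (N : ℝ) ^ ζ := by
        have := Nat.ceil_lt_add_one (show 0 ≤ (N : ℝ) ^ ζ by positivity)
        rw [← hM] at this
        linarith
      have h6 := Real.log_le_log (by exact_mod_cast hM1) h5
      rw [Real.log_mul (by norm_num) (by positivity), Real.log_rpow hNpos] at h6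
      linarith
    -- the dichotomy
    have hdich : ∀ l : Fin (k + 1), 0 < (l : ℕ) → (l : ℕ) < k →
        (∃ (T : Finset ℕ) (e : ℕ → ℕ) (β : ℕ → ℤ), Pop (θ * κ l) (A l) T e β ∧
          C' * (W0b (κ l) A l + 1) < W1 T e β) ∨ W0b (κ l) A l < c * (L * Real.log L) := by
      intro l hl hlk
      by_contra h
      push Not at h
      exact absurd (hcon1 l hl hlk h.1) (not_lt.2 h.2)
    -- choose the sets
    have hchoice : ∀ l : Fin (k + 1), ∃ Z : Finset ℤ, Z ⊆ A l ∧
        ((l : ℕ) < k → θ * κ l / 2 * ((A l).card : ℝ) ≤ (Z.card : ℝ)) ∧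
        (N : ℝ) ^ (-ζ) * (θ * κ l / 2) * ((A l).card : ℝ) ≤ (Z.card : ℝ) ∧
        (0 < (l : ℕ) →
          (∀ b ∈ Z, {b' : ℤ | b' ∈ Z ∧ Pool.Agent.Helper84.TR.Close
            (Pool.Agent.Helper84.TR.Ures K τ L (Pool.Agent.Helper84.TR.W (bd A) (lamS κ A l))
              (lamS κ A l)) b b' ∧
            Pool.Agent.Helper84.TR.dst b b' ≤
              C * Pool.Agent.Helper84.TR.W (bd A) (lamS κ A l)}.ncard ≤ M) ∨
          (∃ c : ℕ → ℝ, (∀ q : ℕ, q.Prime → 0 < c q) ∧
            ∀ b ∈ Z, {b' : ℤ | b' ∈ Z ∧ Pool.Agent.Helper84.TR.Close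
              (Pool.Agent.Helper84.TR.UresC K τ L (WC (bd A) c (lamS κ A l)) c
                (lamS κ A l)) b b'}.ncard ≤ M)) := by
      intro l
      have hκpl := hκpos l
      have hθκ : θ * κ l / 2 ≤ 1 := by
        have : θ * κ l ≤ 1 * 1 := mul_le_mul hθ1 (hκle l) (hκpos l).le zero_le_one
        linarith
      have hκA : θ * κ l / 2 * ((A l).card : ℝ) ≤ ((A l).card : ℝ) := by
        calc θ * κ l / 2 * ((A l).card : ℝ) ≤ 1 * ((A l).card : ℝ) :=
              mul_le_mul_of_nonneg_right hθκ (Nat.cast_nonneg _)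
          _ = _ := one_mul _
      have hweak : ∀ x : ℝ, θ * κ l / 2 * ((A l).card : ℝ) ≤ x →
          (N : ℝ) ^ (-ζ) * (θ * κ l / 2) * ((A l).card : ℝ) ≤ x := by
        intro x hx
        refine le_trans ?_ hx
        rw [mul_assoc]
        exact mul_le_of_le_one_left (by positivity) hNζm1
      rcases Nat.eq_zero_or_pos (l : ℕ) with hl | hl
      · exact ⟨A l, Subset.rfl, fun _ => hκA, hweak _ hκA, fun h => absurd h (by omega)⟩
      by_cases hlk : (l : ℕ) < k
      · rcases hdich l hl hlk with ⟨T, e, β, hpop, hWlt⟩ | hsmall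
        · have hWb := W0b_nonneg (κ l) A l
          have hW1 : 0 < W1 T e β := lt_of_le_of_lt (by positivity) hWlt
          have hθκ0 : 0 < θ * κ l := mul_pos hθ hκpl
          have hcardZ := Zs_card hθκ0 hpop hW1
          refine ⟨Zs (θ * κ l) (A l) T e β, Zs_subset _ _ _ _ _, fun _ => hcardZ,
            hweak _ hcardZ, ?_⟩
          intro _
          left
          intro b hb
          have hWeq : Pool.Agent.Helper84.TR.W (bd A) (lamS κ A l) = W0b (κ l) A l :=
            Wt_eq hA0 l
          rw [hWeq]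
          set G := (Zs (θ * κ l) (A l) T e β).filter (fun b' =>
            Pool.Agent.Helper84.TR.Close
              (Pool.Agent.Helper84.TR.Ures K τ L (W0b (κ l) A l) (lamS κ A l)) b b' ∧
              Pool.Agent.Helper84.TR.dst b b' ≤ C * W0b (κ l) A l) with hG
          have hne0 : ∀ a ∈ Zs (θ * κ l) (A l) T e β, a ≠ 0 := by
            intro a ha h0
            exact hA0 l (h0 ▸ Zs_subset _ _ _ _ _ ha)
          have hcell := cells hθκ0 (hA0 l) hpop (w := 2 * (C * W0b (κ l) A l)) (by
            have h8 : (θ * κ l) ^ 2 * C' / 8 ≥ 2 * C + 1 := by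
              have h9 : κm ^ 2 ≤ (θ * κ l) ^ 2 := pow_le_pow_left₀ hκm0.le (hκml l) 2
              have h10 : κm ^ 2 * C' = 8 * (2 * C + 1) := by
                rw [hC']; field_simp
              have h11 : κm ^ 2 * C' ≤ (θ * κ l) ^ 2 * C' := mul_le_mul_of_nonneg_right h9 hC'0.le
              linarith
            have hlog2 : Real.log 2 ≤ 1 := by
              have := Real.log_two_lt_d9
              linarith
            have h12 : (θ * κ l) ^ 2 * (C' * (W0b (κ l) A l + 1)) ≤ (θ * κ l) ^ 2 * W1 T e β :=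
              mul_le_mul_of_nonneg_left hWlt.le (by positivity)
            have h13 : (2 * C + 1) * (W0b (κ l) A l + 1) ≤
                (θ * κ l) ^ 2 * C' / 8 * (W0b (κ l) A l + 1) :=
              mul_le_mul_of_nonneg_right h8 (by positivity)
            nlinarith) (by positivity) (G := G) (filter_subset _ _) (by
            intro a ha a' ha'
            rw [hG, mem_filter] at ha ha'
            have h14 := dst_triangle (c := a') (hne0 a ha.1) (hne0 b hb)
            rw [dst_comm a b] at h14
            have h14a : dst b a ≤ C * W0b (κ l) A l := ha.2.2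
            have h14b : dst b a' ≤ C * W0b (κ l) A l := ha'.2.2
            linarith)
          have h15 : (8 : ℝ) / (θ * κ l) ^ 2 ≤ B := by
            rw [hB]
            apply div_le_div_of_nonneg_left (by norm_num) (by positivity)
            exact pow_le_pow_left₀ hκm0.le (hκml l) 2
          have h16 : (G.card : ℝ) ≤ M := hcell.trans (h15.trans (hNζ.trans hMle))
          have h17 : {b' : ℤ | b' ∈ Zs (θ * κ l) (A l) T e β ∧ Pool.Agent.Helper84.TR.Close
            (Pool.Agent.Helper84.TR.Ures K τ L (W0b (κ l) A l) (lamS κ A l)) b b' ∧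
              Pool.Agent.Helper84.TR.dst b b' ≤ C * W0b (κ l) A l} = (G : Set ℤ) := by
            ext x
            rw [hG, mem_coe, mem_filter]
            rfl
          rw [h17, Set.ncard_coe_finset]
          exact_mod_cast h16
        · refine ⟨A l, Subset.rfl, fun _ => hκA, hweak _ hκA, ?_⟩
          intro _
          left
          intro b _
          have h17 : Wt (bd A) (lamS κ A l) < δ * (L * Real.log L) := by
            rw [Wt_eq hA0]
            exact lt_of_lt_of_le hsmall (mul_le_mul_of_nonneg_right hcδ hLL)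
          have h18 := hcnt N (bd A) (lamS κ A l) hNn₀ (lamS_zero hA0 l) h17 (A l) b (hA0 l)
          have h19 : {b' : ℤ | b' ∈ A l ∧ Pool.Agent.Helper84.TR.Close
            (Pool.Agent.Helper84.TR.Ures K τ L (Pool.Agent.Helper84.TR.W (bd A) (lamS κ A l))
              (lamS κ A l)) b b' ∧
            Pool.Agent.Helper84.TR.dst b b' ≤
              C * Pool.Agent.Helper84.TR.W (bd A) (lamS κ A l)}.ncard ≤
              ((A l).filter (fun b' =>
                Close (Ures K τ L (Wt (bd A) (lamS κ A l)) (lamS κ A l)) b b')).card := by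
            rw [← Set.ncard_coe_finset]
            apply Set.ncard_le_ncard _ (Finset.finite_toSet _)
            rintro x ⟨hx1, hx2, _⟩
            rw [mem_coe, mem_filter]
            exact ⟨hx1, hx2⟩
          have h20 : (((A l).filter (fun b' =>
                Close (Ures K τ L (Wt (bd A) (lamS κ A l)) (lamS κ A l)) b b')).card : ℝ) ≤ M :=
            h18.trans hMle
          exact h19.trans (by exact_mod_cast h20)
      · -- the last set
        have hlast : l = Fin.last k := by
          apply Fin.ext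
          rw [Fin.val_last]
          have := l.2
          omega
        -- one representative of every value
        obtain ⟨Z, hZY, hZinj, hZcard⟩ := exists_reps (A l) (pf P)
        refine ⟨Z, hZY, fun h => absurd h hlk, ?_, fun _ => Or.inr ?_⟩
        · rw [hZcard, hlast]
          refine le_trans ?_ hPcard.le
          have h21 : θ * κ (Fin.last k) / 2 ≤ 1 := by rw [← hlast]; exact hθκ
          calc (N : ℝ) ^ (-ζ) * (θ * κ (Fin.last k) / 2) * ((A (Fin.last k)).card : ℝ)
              ≤ (N : ℝ) ^ (-ζ) * 1 * ((A (Fin.last k)).card : ℝ) := by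
                apply mul_le_mul_of_nonneg_right _ (Nat.cast_nonneg _)
                exact mul_le_mul_of_nonneg_left h21 hNζm0.le
            _ = (N : ℝ) ^ (-ζ) * ((A (Fin.last k)).card : ℝ) := by rw [mul_one]
        · have h22 : ∀ z : ℤ, ((((A l).image (pf P)).filter (fun z' =>
              Close (Ures K (2 * τ) L (Wt (bd A) (fun q => if q ∈ P then 0 else lamS κ A l q))
                (fun q => if q ∈ P then 0 else lamS κ A l q)) z z')).card) ≤ M := by
            intro z
            have h23 : Wt (bd A) (fun q => if q ∈ P then 0 else lamS κ A l q) <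
                δ' * (L * Real.log L) := by
              rw [hlast]
              exact lt_of_lt_of_le hPW (mul_le_mul_of_nonneg_right hcδ' hLL)
            have h24 := hcnt' N (bd A) (fun q => if q ∈ P then 0 else lamS κ A l q) hNn₀'
              (fun q hq => by
                split_ifs
                · rfl
                · exact lamS_zero hA0 l q hq) h23 ((A l).image (pf P)) z (by
                intro h
                obtain ⟨a, ha, ha0⟩ := mem_image.1 h
                exact pf_ne_zero hP (fun h0 => hA0 l (h0 ▸ ha)) ha0)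
            exact_mod_cast h24.trans hMle
          exact last_stage hτ (by linarith) (lamS_zero hA0 l) hP (hA0 l) hZY hZinj h22
    choose Y hYA hYcard hYcard' hYcell using hchoice
    have hYne : ∀ l, (Y l).Nonempty := by
      intro l
      rw [← card_pos]
      have h21 : (0 : ℝ) < (Y l).card := by
        have h22 : (0 : ℝ) < (A l).card := by exact_mod_cast card_pos.2 (hAne l)
        have h23 := hκpos l
        exact lt_of_lt_of_le (by positivity) (hYcard' l)
      exact_mod_cast h21
    have hYN : ∀ l, ((Y l).card : ℝ) ≤ Real.exp L := by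
      intro l
      rw [hL, Real.exp_log hNpos]
      exact_mod_cast (card_le_card (hYA l)).trans (hAN l)
    have key := hmain Y L M (bd A) (lamS κ A) hL1 hM1 hYne (fun l h => hA0 l (hYA l h)) hYN
      (fun l q hq => lamS_zero hA0 l q hq) (by
        intro l l' hl q hq
        have hlevle : lev (κ l) (A l') q ≤ lamS κ A l q := by
          unfold lamS
          exact single_le_sum (f := fun l' => lev (κ l) (A l') q) (fun _ _ => Nat.zero_le _)
            (mem_filter.2 ⟨mem_univ _, hl⟩)
        have h23 := cdiv_lt (hκpos l) (hAne l') (hA0 l') hq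
          (l := lamS κ A l q + 1) (by omega)
        have h24 : (((Y l').filter (fun b => (q : ℤ) ^ (lamS κ A l q + 1) ∣ b)).card : ℝ) ≤
            (cdiv (A l') ((q : ℤ) ^ (lamS κ A l q + 1)) : ℝ) := by
          unfold cdiv
          apply Nat.cast_le.2
          exact card_le_card (filter_subset_filter _ (hYA l'))
        refine h24.trans (h23.le.trans ?_)
        have hl'k : (l' : ℕ) < k := by
          have h1 : (l' : ℕ) < l := hl
          have h2 := l.2
          omega
        have h25 := hYcard l' hl'k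
        have h26 := hκstep l l' hl
        calc κ l * ((A l').card : ℝ) ≤ κ₀ * (θ * κ l' / 2) * ((A l').card : ℝ) :=
              mul_le_mul_of_nonneg_right h26 (Nat.cast_nonneg _)
          _ = κ₀ * (θ * κ l' / 2 * ((A l').card : ℝ)) := by ring
          _ ≤ κ₀ * (Y l').card := mul_le_mul_of_nonneg_left h25 hκ₀.le)
      (fun l hl => hYcell l hl)
    have hsub : (Fintype.piFinset Y).image (fun f : Fin (k + 1) → ℤ => ∏ i, f i) ⊆ mixSet A := by
      unfold mixSet
      apply image_subset_image
      intro f hf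
      rw [Fintype.mem_piFinset] at hf ⊢
      exact fun l => hYA l (hf l)
    have hYprodne :
        ((Fintype.piFinset Y).image (fun f : Fin (k + 1) → ℤ => ∏ i, f i)).Nonempty := by
      apply Nonempty.image
      rw [Fintype.piFinset_nonempty]
      exact hYne
    have h27 : Real.log (((Fintype.piFinset Y).image
        (fun f : Fin (k + 1) → ℤ => ∏ i, f i)).card) ≤ Real.log ((mixSet A).card : ℝ) := by
      apply Real.log_le_log
      · exact_mod_cast card_pos.2 hYprodne
      · exact_mod_cast card_le_card hsub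
    have h28 : Real.log ((mixSet A).card : ℝ) <
        Real.log c + -ε * L + ∑ l, Real.log ((A l).card : ℝ) := by
      have h29 := Real.log_lt_log (by linarith) hmix
      rw [Real.log_mul (by positivity) hprodpos.ne', Real.log_mul hc0.ne' (by positivity),
        Real.log_rpow hNpos, Real.log_prod (fun l _ => by
          have := card_pos.2 (hAne l)
          positivity)] at h29
      exact h29
    have h30 : ∑ l, Real.log ((A l).card : ℝ) + ∑ l, Real.log (θ * κ l / 2) -
        ∑ _l : Fin (k + 1), ζ * L ≤ ∑ l, Real.log ((Y l).card : ℝ) := by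
      rw [← sum_add_distrib, ← sum_sub_distrib]
      apply sum_le_sum
      intro l _
      have hAp : (0 : ℝ) < (A l).card := by exact_mod_cast card_pos.2 (hAne l)
      have hκp := hκpos l
      have h31 := Real.log_le_log (by positivity) (hYcard' l)
      rw [Real.log_mul (by positivity) hAp.ne', Real.log_mul hNζm0.ne' (by positivity),
        Real.log_rpow hNpos] at h31
      linarith
    rw [sum_const, card_univ, Fintype.card_fin, nsmul_eq_mul] at h30
    have h31 : Real.log c ≤ D := by
      rw [← Real.log_exp D]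
      exact Real.log_le_log hc0 hcD
    push_cast at key h30
    have h32 : ((k : ℝ) + 1) * (ζ * L + Real.log M + 1) ≤
        ((k : ℝ) + 1) * (2 * ζ * L + Real.log 2 + 1) := by
      apply mul_le_mul_of_nonneg_left _ (by positivity)
      linarith
    have h33 : ((k : ℝ) + 1) * (3 * ζ) ≤ ε := by
      rw [hζ]
      have : ((k : ℝ) + 1) * (3 * (ε / (8 * (k + 2)))) = ε * (3 * (k + 1) / (8 * (k + 2))) := by
        field_simp
      rw [this]
      have h34 : 3 * ((k : ℝ) + 1) / (8 * (k + 2)) ≤ 1 := by
        rw [div_le_one (by positivity)]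
        have : (0 : ℝ) ≤ k := Nat.cast_nonneg _
        linarith
      calc ε * (3 * ((k : ℝ) + 1) / (8 * (k + 2))) ≤ ε * 1 := mul_le_mul_of_nonneg_left h34 hε.le
        _ = ε := mul_one _
    have h35 : ((k : ℝ) + 1) * (3 * ζ) * L ≤ ε * L := mul_le_mul_of_nonneg_right h33 (by linarith)
    rw [hD] at h31
    have h36 : ((k : ℝ) + 1) * (2 * ζ * L + Real.log 2 + 1) + ((k : ℝ) + 1) * (ζ * L) =
        ((k : ℝ) + 1) * (3 * ζ) * L + (k + 1) * (Real.log 2 + 1) := by ring
    linarith

end Pool.Agent.Helper34.TR
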