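import Pool.Agent.Helper34.TR.Match
import Pool.Agent.Helper34.TR.NZG

set_option autoImplicit false

/-!
MP_120218_co, project TR, general form: the covering theorem for an abstract family of sets.
-/

open Finset

namespace Pool.Agent.Helper34.TR

open Pool.Agent.Helper26.TR Pool.Agent.Helper88.NZ

theorem le_card_mixSet {k : ℕ} (A : Fin k → Finset ℤ) (hA : ∀ i, (A i).Nonempty)
    (hA0 : ∀ i, (0 : ℤ) ∉ A i) (G : Finset ℤ) : G.card ≤ (mixSet (seq A id G)).card := by
  classical
  choose a ha using hA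
  have ha0 : ∏ i, a i ≠ 0 := prod_ne_zero_iff.2 fun i _ h => hA0 i (h ▸ ha i)
  apply Finset.card_le_card_of_injOn (fun g => (∏ i, a i) * g)
  · intro g hg
    rw [mem_coe] at hg ⊢
    unfold mixSet
    rw [mem_image]
    refine ⟨Fin.snoc (α := fun _ => ℤ) a g, ?_, ?_⟩
    · rw [Fintype.mem_piFinset]
      intro l
      induction l using Fin.lastCases with
      | last => rw [Fin.snoc_last, seq_last]; exact hg
      | cast l => rw [Fin.snoc_castSucc, seq_cast]; exact ha l
    · rw [Fin.prod_univ_castSucc]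
      simp
  · intro g _ g' _ hgg
    exact mul_left_cancel₀ ha0 hgg

/-- the relation of the stage with density `κ` -/
def StR {k : ℕ} {X : Type} (B : Fin k → X → Finset ℤ) (θ κ C₂ w : ℝ) (x : Fin k → X)
    (i j : Fin k) : Prop :=
  (∀ (T : Finset ℕ) (e : ℕ → ℕ) (β : ℕ → ℤ), Pop (θ * κ) (B i (x i)) T e β →
    W1 T e β ≤ C₂ * W0 κ (B j (x j))) ∧ w ≤ W0 κ (B j (x j))

/-- the type of tuples for which `G` fails -/
def TyG {k : ℕ} {X : Type} (B : Fin k → X → Finset ℤ) (G : Finset ℤ) (κ w r : ℝ)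
    (x : Fin k → X) : Prop :=
  ∀ P : Finset ℕ, (∀ q ∈ P, q.Prime) →
    (∀ n, Wt n (fun q => if q ∈ P then 0 else ∑ i, lev κ (B i (x i)) q) < w) →
    ((G.image (pf P)).card : ℝ) ≤ r * (G.card : ℝ)

theorem cover (hSh : ShearerS) (hNZ : NZG) (k : ℕ) (hk : 1 ≤ k) (ε θ : ℝ) (hε : 0 < ε)
    (hθ : 0 < θ) (hθ1 : θ ≤ 1) (C₁ t : ℝ → ℝ) (hC₁ : ∀ κ, 0 < κ → 0 ≤ C₁ κ)
    (ht : ∀ κ, 0 < κ → 0 ≤ t κ) :
    ∃ (m : ℕ) (ρ c : ℝ), 0 < ρ ∧ 0 < c ∧
      ∀ (N : ℕ) (X : Type) (Adm : X → Prop) (B : Fin k → X → Finset ℤ) (G : Finset ℤ),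
        (∀ i x, (0 : ℤ) ∉ B i x) → (∀ i x, Adm x → (B i x).Nonempty) →
        (∀ i x, (B i x).card ≤ N) → G.Nonempty → (0 : ℤ) ∉ G → G.card ≤ N →
        (∀ κ : ℝ, 0 < κ → κ ≤ 1 → ∀ i : Fin k, ∀ J : Finset X, (∀ x ∈ J, Adm x) →
          J.card ≤ m + 1 → ∀ y, Adm y → y ∉ J → ∀ V : ℝ,
          (∀ (T : Finset ℕ) (e : ℕ → ℕ) (β : ℕ → ℤ), Pop (θ * κ) (B i y) T e β →
            W1 T e β ≤ V) →
          ∑ x ∈ J, W0 κ (B i x) ≤ C₁ κ * V + ρ * (Real.log N * Real.log (Real.log N))) →
        (∀ κ : ℝ, 0 < κ → κ ≤ 1 → ∀ i : Fin k, ∀ J : Finset X, (∀ x ∈ J, Adm x) →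
          J.card ≤ m + 1 → ∃ s : ℕ → ℕ,
          (∀ n, Wt n s ≤ ρ * (Real.log N * Real.log (Real.log N))) ∧
          ∀ q : ℕ, q.Prime → ((J.filter (fun x => s q < lev κ (B i x) q)).card : ℝ) ≤ t κ) →
        ∃ E : Fin k → Finset X, (∀ i, (E i).card ≤ m) ∧
          ∀ x : Fin k → X, (∀ i, Adm (x i)) → (∀ i, x i ∉ E i) →
            c * (N : ℝ) ^ (-ε) * ((G.card : ℝ) * ∏ i, ((B i (x i)).card : ℝ)) ≤
              ((mixSet (seq (fun i => B i (x i)) id G)).card : ℝ) := by
  classical
  obtain ⟨κ, C, c₁, ζ, hκ, hC, hc₁, hζ, hnz⟩ := hNZ k ε θ hε hθ hθ1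
  have hk1 : (1 : ℝ) ≤ k := by exact_mod_cast hk
  have hk0 : (0 : ℝ) < k := by linarith
  set κ' : ℕ → ℝ := fun l => if h : l < k + 1 then κ ⟨l, h⟩ else 1 with hκ'
  have hκ'0 : ∀ l, 0 < κ' l := by
    intro l
    rw [hκ']
    simp only
    split_ifs with h
    · exact (hκ _).1
    · exact one_pos
  have hκ'1 : ∀ l, κ' l ≤ 1 := by
    intro l
    rw [hκ']
    simp only
    split_ifs with h
    · exact (hκ _).2
    · exact le_rfl
  set C₂ : ℝ := 2 * C * k with hC₂
  have hC₂0 : 0 ≤ C₂ := by positivity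
  set κG : ℝ := κ (Fin.last k) with hκG
  -- the number of tuples
  obtain ⟨m, hm⟩ := exists_nat_ge (∑ τ : Fin k × Finset (Fin k) × (Fin k → Fin k),
    (C₁ (κ' τ.1) * C₂ + 2) + k * t κG / ζ)
  set ρ : ℝ := c₁ / (2 * k) with hρ
  have hρ0 : 0 < ρ := by positivity
  -- the threshold
  obtain ⟨n₀, hn₀⟩ : ∃ n₀ : ℕ, ∀ N : ℕ, n₀ ≤ N → max 16 (1 / c₁) ≤ Real.log N := by
    have h1 : Filter.Tendsto (fun N : ℕ => Real.log (N : ℝ)) Filter.atTop Filter.atTop :=
      Real.tendsto_log_atTop.comp tendsto_natCast_atTop_atTop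
    obtain ⟨n₀, hn₀⟩ := (Filter.tendsto_atTop.1 h1 (max 16 (1 / c₁))).exists_forall_of_atTop
    exact ⟨n₀, hn₀⟩
  set n₁ : ℕ := max n₀ 2 with hn₁
  have hn₁0 : (0 : ℝ) < n₁ := by
    have : 0 < n₁ := by omega
    exact_mod_cast this
  set c : ℝ := min c₁ (1 / (n₁ : ℝ) ^ (k + 1)) with hc
  have hc0 : 0 < c := lt_min hc₁ (by positivity)
  have hcc₁ : c ≤ c₁ := min_le_left _ _
  have hcn : c ≤ 1 / (n₁ : ℝ) ^ (k + 1) := min_le_right _ _
  refine ⟨m, ρ, c, hρ0, hc0, ?_⟩
  intro N X Adm B G hB0 hBne hBN hGne hG0 hGN H1 H2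
  have hGpos : 1 ≤ G.card := card_pos.2 hGne
  have hN1 : 1 ≤ N := hGpos.trans hGN
  have hNpos : (0 : ℝ) < N := by exact_mod_cast hN1
  have hNε : (N : ℝ) ^ (-ε) ≤ 1 := by
    apply Real.rpow_le_one_of_one_le_of_nonpos (by exact_mod_cast hN1) (by linarith)
  rcases lt_or_ge N n₁ with hlt | hge
  · -- small `N`
    refine ⟨fun _ => ∅, by simp, ?_⟩
    intro x hx _
    have h0 : G.card ≤ (mixSet (seq (fun i => B i (x i)) id G)).card :=
      le_card_mixSet _ (fun i => hBne i (x i) (hx i)) (fun i => hB0 i (x i)) G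
    have h1 : (1 : ℝ) ≤ ((mixSet (seq (fun i => B i (x i)) id G)).card : ℝ) := by
      exact_mod_cast hGpos.trans h0
    refine le_trans ?_ h1
    have h2 : (G.card : ℝ) * ∏ i, ((B i (x i)).card : ℝ) ≤ (n₁ : ℝ) ^ (k + 1) := by
      have h3 : (G.card : ℝ) ≤ n₁ := by exact_mod_cast hGN.trans hlt.le
      have h4 : ∏ i, ((B i (x i)).card : ℝ) ≤ (n₁ : ℝ) ^ k := by
        calc ∏ i, ((B i (x i)).card : ℝ) ≤ ∏ _i : Fin k, (n₁ : ℝ) := by
              apply prod_le_prod (fun _ _ => Nat.cast_nonneg _)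
              intro i _
              exact_mod_cast (hBN i (x i)).trans hlt.le
          _ = (n₁ : ℝ) ^ k := by rw [prod_const, card_univ, Fintype.card_fin]
      rw [pow_succ']
      exact mul_le_mul h3 h4 (prod_nonneg fun _ _ => Nat.cast_nonneg _) hn₁0.le
    calc c * (N : ℝ) ^ (-ε) * ((G.card : ℝ) * ∏ i, ((B i (x i)).card : ℝ))
        ≤ (1 / (n₁ : ℝ) ^ (k + 1)) * 1 * (n₁ : ℝ) ^ (k + 1) := by
          apply mul_le_mul _ h2 (mul_nonneg (Nat.cast_nonneg _)
            (prod_nonneg fun _ _ => Nat.cast_nonneg _)) (by positivity)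
          exact mul_le_mul hcn hNε (by positivity) (by positivity)
      _ = 1 := by field_simp
  · have hNn₀ : n₀ ≤ N := by omega
    have hN2 : 2 ≤ N := by omega
    have hLmax := hn₀ N hNn₀
    have hL16 : 16 ≤ Real.log N := (le_max_left _ _).trans hLmax
    have hLc : 1 / c₁ ≤ Real.log N := (le_max_right _ _).trans hLmax
    set L : ℝ := Real.log N with hL
    have hLL1 : 1 ≤ Real.log L := by
      rw [Real.le_log_iff_exp_le (by linarith)]
      have h3 : Real.exp 1 < 2.7182818286 := Real.exp_one_lt_d9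
      linarith
    set LL : ℝ := L * Real.log L with hLL
    have hLLL : L ≤ LL := by
      rw [hLL]
      nlinarith
    have hLL0 : 0 < LL := by linarith
    have hcLL : 1 ≤ c₁ * LL := by
      have h1 : 1 / c₁ ≤ LL := hLc.trans hLLL
      rw [div_le_iff₀ hc₁] at h1
      linarith
    set w : ℝ := c₁ / k * LL with hw
    have hw0 : 0 < w := by positivity
    have hρw : ρ * LL ≤ w := by
      rw [hρ, hw]
      apply mul_le_mul_of_nonneg_right _ hLL0.le
      apply div_le_div_of_nonneg_left hc₁.le hk0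
      linarith
    have hρG : k * (ρ * LL) < c₁ * LL := by
      have h1 : k * (ρ * LL) = c₁ * LL / 2 := by
        rw [hρ]; field_simp
      rw [h1]
      have : 0 < c₁ * LL := by positivity
      linarith
    -- bad tuples
    set Bad : (Fin k → X) → Prop := fun x => (∀ i, Adm (x i)) ∧
      ((mixSet (seq (fun i => B i (x i)) id G)).card : ℝ) <
        c * (N : ℝ) ^ (-ε) * ((G.card : ℝ) * ∏ i, ((B i (x i)).card : ℝ)) with hBad
    set Cyc : (Fin k × Finset (Fin k) × (Fin k → Fin k)) → (Fin k → X) → Prop := fun τ x =>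
      τ.2.1.Nonempty ∧ (∀ i ∈ τ.2.1, τ.2.2 i ∈ τ.2.1) ∧
        ∀ i ∈ τ.2.1, StR B θ (κ' τ.1) C₂ w x i (τ.2.2 i) with hCyc
    have htypes : ∀ x, Bad x → (∃ τ, Cyc τ x) ∨ TyG B G κG (c₁ * LL) ((N : ℝ) ^ (-ζ)) x := by
      intro x hx
      by_contra hcon
      rw [not_or] at hcon
      obtain ⟨hcon1, hcon2⟩ := hcon
      -- the order
      obtain ⟨σ, hσ, hσR⟩ := exists_order (k := k)
        (fun l i j => StR B θ (κ' l) C₂ w x i j) (by
        intro l hl I hI
        by_contra hno
        push Not at hno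
        apply hcon1
        have hf : ∀ i : Fin k, ∃ j : Fin k, i ∈ I → j ∈ I ∧ StR B θ (κ' l) C₂ w x i j := by
          intro i
          by_cases hi : i ∈ I
          · obtain ⟨j, hj, hR⟩ := hno i hi
            exact ⟨j, fun _ => ⟨hj, hR⟩⟩
          · exact ⟨i, fun h => absurd h hi⟩
        choose f hf using hf
        exact ⟨(⟨l, hl⟩, I, f), hI, fun i hi => (hf i hi).1, fun i hi => (hf i hi).2⟩)
      set A : Fin (k + 1) → Finset ℤ := seq (fun i => B i (x i)) σ G with hA
      have hAcast : ∀ l : Fin k, A l.castSucc = B (σ l) (x (σ l)) := fun l => seq_cast _ _ _ l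
      have hAlast : A (Fin.last k) = G := seq_last _ _ _
      have hAprop : ∀ (Q : Finset ℤ → Prop), (∀ i, Q (B i (x i))) → Q G → ∀ l, Q (A l) := by
        intro Q hQ hQG l
        induction l using Fin.lastCases with
        | last => rw [hAlast]; exact hQG
        | cast l => rw [hAcast]; exact hQ _
      have hAne : ∀ l, (A l).Nonempty :=
        hAprop (fun s => s.Nonempty) (fun i => hBne i (x i) (hx.1 i)) hGne
      have hA0 : ∀ l, (0 : ℤ) ∉ A l := hAprop (fun s => (0 : ℤ) ∉ s) (fun i => hB0 i (x i)) hG0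
      have hAN : ∀ l, (A l).card ≤ N := hAprop (fun s => s.card ≤ N) (fun i => hBN i (x i)) hGN
      have hσbij : Function.Bijective σ := Finite.injective_iff_bijective.1 hσ
      have hprod : ∏ l, ((A l).card : ℝ) = (G.card : ℝ) * ∏ i, ((B i (x i)).card : ℝ) := by
        rw [Fin.prod_univ_castSucc, hAlast, mul_comm]
        congr 1
        rw [prod_congr rfl (fun l _ => by rw [hAcast l])]
        exact hσbij.prod_comp (fun i => ((B i (x i)).card : ℝ))
      have hmix : ((mixSet A).card : ℝ) < c₁ * (N : ℝ) ^ (-ε) * ∏ l, ((A l).card : ℝ) := by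
        rw [hA, mixSet_seq _ σ hσ G, ← hA, hprod]
        refine hx.2.trans_le ?_
        apply mul_le_mul_of_nonneg_right _ (mul_nonneg (Nat.cast_nonneg _)
          (prod_nonneg fun _ _ => Nat.cast_nonneg _))
        exact mul_le_mul_of_nonneg_right hcc₁ (by positivity)
      rcases hnz N A hAne hA0 hAN hmix with ⟨l, hl0, hlk, hl1, hl2⟩ | hG
      · -- a backward relation
        have hWb : 0 < W0b (κ l) A l := by
          have : 0 < c₁ * LL := by positivity
          exact this.trans_le hl2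
        have hWb1 : 1 ≤ W0b (κ l) A l := hcLL.trans hl2
        obtain ⟨l', hl', hmax⟩ : ∃ l' : Fin (k + 1), l' < l ∧
            W0b (κ l) A l ≤ k * W0 (κ l) (A l') := by
          by_contra hno
          push Not at hno
          have h1 : W0b (κ l) A l ≤ ∑ l' ∈ univ.filter (fun l' : Fin (k + 1) => l' < l),
              W0b (κ l) A l / k := by
            conv_lhs => unfold W0b
            apply sum_le_sum
            intro l' hl'
            rw [le_div_iff₀ hk0, mul_comm]
            exact (hno l' (mem_filter.1 hl').2).le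
          rw [sum_const, nsmul_eq_mul] at h1
          have h2 : (univ.filter (fun l' : Fin (k + 1) => l' < l)).card < k := by
            have h3 : (univ.filter (fun l' : Fin (k + 1) => l' < l)) = Iio l := by
              ext z
              simp
            rw [h3, Fin.card_Iio]
            exact hlk
          have h3 : ((univ.filter (fun l' : Fin (k + 1) => l' < l)).card : ℝ) < k := by
            exact_mod_cast h2
          have h4 : ((univ.filter (fun l' : Fin (k + 1) => l' < l)).card : ℝ) *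
              (W0b (κ l) A l / k) < k * (W0b (κ l) A l / k) :=
            mul_lt_mul_of_pos_right h3 (by positivity)
          have h5 : (k : ℝ) * (W0b (κ l) A l / k) = W0b (κ l) A l := by field_simp
          linarith
        have hl'k : (l' : ℕ) < k := lt_trans hl' hlk
        set i : Fin k := ⟨l, hlk⟩ with hi
        set j : Fin k := ⟨l', hl'k⟩ with hj
        have hil : l = i.castSucc := rfl
        have hjl : l' = j.castSucc := rfl
        have hji : j < i := hl'
        have hκl : κ' i = κ l := by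
          rw [hκ']
          simp only
          rw [dif_pos (show (i : ℕ) < k + 1 by have := l.2; exact this)]
        apply hσR i j hji
        show StR B θ (κ' i) C₂ w x (σ i) (σ j)
        rw [hκl]
        have hAi : A l = B (σ i) (x (σ i)) := by rw [hil]; exact hAcast i
        have hAj : A l' = B (σ j) (x (σ j)) := by rw [hjl]; exact hAcast j
        constructor
        · intro T e β hP
          rw [← hAi] at hP
          rw [← hAj]
          refine (hl1 T e β hP).trans ?_
          calc C * (W0b (κ l) A l + 1) ≤ C * (2 * W0b (κ l) A l) := by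
                apply mul_le_mul_of_nonneg_left _ hC.le
                linarith
            _ ≤ C * (2 * (k * W0 (κ l) (A l'))) := by
                apply mul_le_mul_of_nonneg_left _ hC.le
                linarith
            _ = C₂ * W0 (κ l) (A l') := by rw [hC₂]; ring
        · rw [← hAj]
          have h1 : c₁ * LL ≤ k * W0 (κ l) (A l') := hl2.trans hmax
          rw [hw, div_mul_eq_mul_div, div_le_iff₀ hk0, mul_comm _ (k : ℝ)]
          exact h1
      · -- type G
        apply hcon2
        intro P hP hPW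
        have h1 := hG P hP (by
          have h2 := hPW (bd A)
          refine lt_of_le_of_lt (le_of_eq ?_) h2
          congr 1
          funext q
          by_cases hq : q ∈ P
          · simp [hq]
          · simp only [if_neg hq]
            unfold lamS
            have h3 : univ.filter (fun l' : Fin (k + 1) => l' < Fin.last k) =
                univ.map Fin.castSuccEmb := by
              ext z
              rw [mem_filter, mem_map]
              constructor
              · rintro ⟨_, hz⟩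
                have hz' : (z : ℕ) < k := hz
                exact ⟨⟨z, hz'⟩, mem_univ _, rfl⟩
              · rintro ⟨y, _, rfl⟩
                exact ⟨mem_univ _, Fin.castSucc_lt_last y⟩
            rw [h3, sum_map]
            have h4 : ∀ l : Fin k, lev (κ (Fin.last k)) (A (Fin.castSuccEmb l)) q =
                lev κG (B (σ l) (x (σ l))) q := by
              intro l
              have : A (Fin.castSuccEmb l) = B (σ l) (x (σ l)) := hAcast l
              rw [this]
            rw [sum_congr rfl (fun l _ => h4 l)]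
            exact hσbij.sum_comp (fun i => lev κG (B i (x i)) q))
        rw [hAlast] at h1
        exact h1
    -- the covering sets
    by_contra hno
    push Not at hno
    have hbad : ∀ E : Fin k → Finset X, (∀ i, (E i).card ≤ m) →
        ∃ x : Fin k → X, Bad x ∧ ∀ i, x i ∉ E i := by
      intro E hE
      obtain ⟨x, hx1, hx2, hx3⟩ := hno E hE
      exact ⟨x, ⟨hx1, hx3⟩, hx2⟩
    have hfam : ∀ n : ℕ, n ≤ m + 1 → ∃ F : Finset (Fin k → X), F.card = n ∧
        (∀ x ∈ F, Bad x) ∧ ∀ x ∈ F, ∀ y ∈ F, x ≠ y → ∀ i, x i ≠ y i := by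
      intro n
      induction n with
      | zero => intro _; exact ⟨∅, rfl, by simp, by simp⟩
      | succ n ih =>
        intro hn
        obtain ⟨F, hF1, hF2, hF3⟩ := ih (by omega)
        obtain ⟨x, hx1, hx2⟩ := hbad (fun i => F.image (fun y => y i)) (fun i => by
          refine card_image_le.trans ?_
          omega)
        have hxF : x ∉ F := by
          intro h
          exact hx2 ⟨0, hk⟩ (mem_image_of_mem _ h)
        refine ⟨insert x F, by rw [card_insert_of_notMem hxF, hF1], ?_, ?_⟩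
        · intro y hy
          rcases mem_insert.1 hy with rfl | hy
          · exact hx1
          · exact hF2 y hy
        · intro y hy z hz hyz i
          rcases mem_insert.1 hy with h1 | hy'
          · rcases mem_insert.1 hz with h2 | hz'
            · exact absurd (h1.trans h2.symm) hyz
            · rw [h1]
              intro h
              exact hx2 i (h ▸ mem_image_of_mem (fun y : Fin k → X => y i) hz')
          · rcases mem_insert.1 hz with h2 | hz'
            · rw [h2]
              intro h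
              exact hx2 i (h ▸ mem_image_of_mem (fun y : Fin k → X => y i) hy')
            · exact hF3 y hy' z hz' hyz i
    obtain ⟨F, hF1, hF2, hF3⟩ := hfam (m + 1) le_rfl
    have hcyc : ∀ τ, ((F.filter (fun x => Cyc τ x)).card : ℝ) ≤ C₁ (κ' τ.1) * C₂ + 2 := by
      intro τ
      have hsub : F.filter (fun x => Cyc τ x) ⊆ F := filter_subset _ _
      have hcard : (F.filter (fun x => Cyc τ x)).card ≤ m + 1 := hF1 ▸ card_le_card hsub
      have hC₁0 : 0 ≤ C₁ (κ' τ.1) := hC₁ _ (hκ'0 _)
      rcases (F.filter (fun x => Cyc τ x)).eq_empty_or_nonempty with he | ⟨x₁, hx₁⟩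
      · rw [he, card_empty, Nat.cast_zero]
        positivity
      obtain ⟨-, hI, hf, -⟩ := mem_filter.1 hx₁
      exact card_cycle (X := X) B (κ := κ' τ.1) (θ := θ) (C₁ := C₁ (κ' τ.1)) (C₂ := C₂) (w := w)
        (ρ := ρ * LL) (F.filter (fun x => Cyc τ x)) Adm
        (fun x hx i => (hF2 x (hsub hx)).1 i)
        (fun x hx y hy hxy i => hF3 x (hsub hx) y (hsub hy) hxy i)
        τ.2.1 hI τ.2.2 hf
        (fun i J hJ hJc y hy hyJ V hV => H1 (κ' τ.1) (hκ'0 _) (hκ'1 _) i J hJ (hJc.trans hcard) y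
          hy hyJ V hV)
        (fun x hx i hi => (mem_filter.1 hx).2.2.2 i hi) hw0 hρw hC₁0 hC₂0
    have htG : ((F.filter (fun x => TyG B G κG (c₁ * LL) ((N : ℝ) ^ (-ζ)) x)).card : ℝ) ≤
        k * t κG / ζ := by
      have hsub : F.filter (fun x => TyG B G κG (c₁ * LL) ((N : ℝ) ^ (-ζ)) x) ⊆ F :=
        filter_subset _ _
      have hcard : (F.filter (fun x => TyG B G κG (c₁ * LL) ((N : ℝ) ^ (-ζ)) x)).card ≤ m + 1 :=
        hF1 ▸ card_le_card hsub
      rw [le_div_iff₀ hζ]
      exact card_typeG (X := X) hSh B hB0 G hG0 hGne (κ := κG) (ρ := ρ * LL) (w := c₁ * LL)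
        (ζ := ζ) (t := t κG) hN2 hGN
        (F.filter (fun x => TyG B G κG (c₁ * LL) ((N : ℝ) ^ (-ζ)) x)) Adm
        (fun x hx i => (hF2 x (hsub hx)).1 i)
        (fun x hx y hy hxy i => hF3 x (hsub hx) y (hsub hy) hxy i)
        (fun i J hJ hJc => H2 κG (hκ _).1 (hκ _).2 i J hJ (hJc.trans hcard))
        (fun x hx P hP hPW => (mem_filter.1 hx).2 P hP hPW) hρG (ht _ (hκ _).1)
    have hcov : F ⊆ (univ.biUnion (fun τ => F.filter (fun x => Cyc τ x))) ∪
        F.filter (fun x => TyG B G κG (c₁ * LL) ((N : ℝ) ^ (-ζ)) x) := by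
      intro x hx
      rw [mem_union]
      rcases htypes x (hF2 x hx) with ⟨τ, hτ⟩ | hG
      · left
        rw [mem_biUnion]
        exact ⟨τ, mem_univ _, mem_filter.2 ⟨hx, hτ⟩⟩
      · right
        exact mem_filter.2 ⟨hx, hG⟩
    have hfin : (F.card : ℝ) ≤ m := by
      refine le_trans ?_ hm
      have h1 : F.card ≤ ∑ τ, (F.filter (fun x => Cyc τ x)).card +
          (F.filter (fun x => TyG B G κG (c₁ * LL) ((N : ℝ) ^ (-ζ)) x)).card :=
        (card_le_card hcov).trans ((card_union_le _ _).trans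
          (Nat.add_le_add_right card_biUnion_le _))
      have h2 : (F.card : ℝ) ≤ ∑ τ, ((F.filter (fun x => Cyc τ x)).card : ℝ) +
          ((F.filter (fun x => TyG B G κG (c₁ * LL) ((N : ℝ) ^ (-ζ)) x)).card : ℝ) := by
        exact_mod_cast h1
      refine h2.trans (add_le_add (sum_le_sum fun τ _ => hcyc τ) htG)
    rw [hF1] at hfin
    push_cast at hfin
    linarith

end Pool.Agent.Helper34.TR
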