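import Pool.Agent.Helper34.TR.Abs

set_option autoImplicit false

/-!
MP_120218_co, project TR, general form: tuples with at most one exceptional coordinate, for an
abstract family of sets.
-/

open Finset

namespace Pool.Agent.Helper34.TR

open Pool.Agent.Helper26.TR Pool.Agent.Helper88.NZ

theorem mem_mixSet_seq {k : ℕ} (A : Fin k → Finset ℤ) (G : Finset ℤ) (z : ℤ) :
    z ∈ mixSet (seq A id G) ↔ ∃ f : Fin k → ℤ, (∀ i, f i ∈ A i) ∧ ∃ g ∈ G, (∏ i, f i) * g = z := by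
  classical
  unfold mixSet
  rw [mem_image]
  constructor
  · rintro ⟨f, hf, rfl⟩
    rw [Fintype.mem_piFinset] at hf
    refine ⟨fun i => f i.castSucc, fun i => ?_, f (Fin.last k), ?_, ?_⟩
    · have := hf i.castSucc
      rwa [seq_cast] at this
    · have := hf (Fin.last k)
      rwa [seq_last] at this
    · rw [Fin.prod_univ_castSucc]
  · rintro ⟨f, hf, g, hg, rfl⟩
    refine ⟨Fin.snoc (α := fun _ => ℤ) f g, ?_, ?_⟩
    · rw [Fintype.mem_piFinset]
      intro l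
      induction l using Fin.lastCases with
      | last => rw [Fin.snoc_last, seq_last]; exact hg
      | cast l => rw [Fin.snoc_castSucc, seq_cast]; exact hf l
    · rw [Fin.prod_univ_castSucc]
      simp

theorem mem_mixSet {k : ℕ} (A : Fin k → Finset ℤ) (z : ℤ) :
    z ∈ mixSet A ↔ ∃ f : Fin k → ℤ, (∀ i, f i ∈ A i) ∧ ∏ i, f i = z := by
  classical
  unfold mixSet
  rw [mem_image]
  simp only [Fintype.mem_piFinset]

theorem mixSet_seq_one {k : ℕ} (A : Fin k → Finset ℤ) : mixSet (seq A id {1}) = mixSet A := by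
  ext z
  rw [mem_mixSet_seq, mem_mixSet]
  constructor
  · rintro ⟨f, hf, g, hg, rfl⟩
    rw [mem_singleton] at hg
    exact ⟨f, hf, by rw [hg, mul_one]⟩
  · rintro ⟨f, hf, rfl⟩
    exact ⟨f, hf, 1, mem_singleton_self _, mul_one _⟩

theorem mixSet_succAbove {k : ℕ} (A : Fin (k + 1) → Finset ℤ) (i₀ : Fin (k + 1)) :
    mixSet (seq (fun j => A (i₀.succAbove j)) id (A i₀)) = mixSet A := by
  ext z
  rw [mem_mixSet_seq, mem_mixSet]
  constructor
  · rintro ⟨f, hf, g, hg, rfl⟩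
    refine ⟨Fin.insertNth (α := fun _ => ℤ) i₀ g f, ?_, ?_⟩
    · intro i
      rcases Fin.eq_self_or_eq_succAbove i₀ i with h | ⟨j, h⟩
      · rw [h, Fin.insertNth_apply_same]
        exact hg
      · rw [h, Fin.insertNth_apply_succAbove]
        exact hf j
    · rw [Fin.prod_univ_succAbove _ i₀, Fin.insertNth_apply_same, mul_comm]
      congr 1
      apply prod_congr rfl
      intro j _
      rw [Fin.insertNth_apply_succAbove]
  · rintro ⟨f, hf, rfl⟩
    refine ⟨fun j => f (i₀.succAbove j), fun j => hf _, f i₀, hf _, ?_⟩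
    rw [Fin.prod_univ_succAbove _ i₀, mul_comm]

/-- **The general theorem**, abstract form. -/
theorem general (hSh : ShearerS) (hNZ : NZG) (k : ℕ) (hk : 1 ≤ k) (ε θ : ℝ) (hε : 0 < ε)
    (hθ : 0 < θ) (hθ1 : θ ≤ 1) (C₁ t : ℝ → ℝ) (hC₁ : ∀ κ, 0 < κ → 0 ≤ C₁ κ)
    (ht : ∀ κ, 0 < κ → 0 ≤ t κ) :
    ∃ (m : ℕ) (ρ c : ℝ), 0 < ρ ∧ 0 < c ∧
      ∀ (N : ℕ) (X : Type) (Adm : X → Prop) (B : Fin k → X → Finset ℤ),
        (∀ i x, (0 : ℤ) ∉ B i x) → (∀ i x, Adm x → (B i x).Nonempty) →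
        (∀ i x, (B i x).card ≤ N) → 1 ≤ N →
        (∀ κ : ℝ, 0 < κ → κ ≤ 1 → ∀ i : Fin k, ∀ J : Finset X, (∀ x ∈ J, Adm x) →
          J.card ≤ m + 1 → ∀ y, Adm y → y ∉ J → ∀ V : ℝ,
          (∀ (T : Finset ℕ) (e : ℕ → ℕ) (β : ℕ → ℤ), Pop (θ * κ) (B i y) T e β →
            W1 T e β ≤ V) →
          ∑ x ∈ J, W0 κ (B i x) ≤ C₁ κ * V + ρ * (Real.log N * Real.log (Real.log N))) →
        (∀ κ : ℝ, 0 < κ → κ ≤ 1 → ∀ i : Fin k, ∀ J : Finset X, (∀ x ∈ J, Adm x) →
          J.card ≤ m + 1 → ∃ s : ℕ → ℕ,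
          (∀ n, Wt n s ≤ ρ * (Real.log N * Real.log (Real.log N))) ∧
          ∀ q : ℕ, q.Prime → ((J.filter (fun x => s q < lev κ (B i x) q)).card : ℝ) ≤ t κ) →
        ∃ E : Fin k → Finset X, (∀ i, (E i).card ≤ m) ∧
          ∀ x : Fin k → X, (∀ i, Adm (x i)) → ¬ (∃ i j, i ≠ j ∧ x i ∈ E i ∧ x j ∈ E j) →
            c * (N : ℝ) ^ (-ε) * (∏ i, ((B i (x i)).card : ℝ)) ≤
              ((mixSet (fun i => B i (x i))).card : ℝ) := by
  classical
  obtain ⟨k', rfl⟩ : ∃ k', k = k' + 1 := ⟨k - 1, by omega⟩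
  rcases Nat.eq_zero_or_pos k' with hk' | hk'
  · -- one set
    subst hk'
    refine ⟨0, 1, 1, one_pos, one_pos, ?_⟩
    intro N X Adm B hB0 hBne hBN hN1 _ _
    refine ⟨fun _ => ∅, by simp, ?_⟩
    intro x hx _
    have hNε : (N : ℝ) ^ (-ε) ≤ 1 := by
      apply Real.rpow_le_one_of_one_le_of_nonpos (by exact_mod_cast hN1) (by linarith)
    have h1 : mixSet (fun i : Fin (0 + 1) => B i (x i)) = B 0 (x 0) := by
      ext z
      rw [mem_mixSet]
      constructor
      · rintro ⟨f, hf, rfl⟩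
        simpa using hf 0
      · intro hz
        refine ⟨fun _ => z, fun i => ?_, by simp⟩
        have : i = 0 := by
          apply Fin.ext
          have := i.2
          simp only [Fin.val_zero]
          omega
        rw [this]
        exact hz
    rw [h1]
    have h2 : ∏ i : Fin (0 + 1), ((B i (x i)).card : ℝ) = ((B 0 (x 0)).card : ℝ) := by simp
    rw [h2, one_mul]
    exact mul_le_of_le_one_left (Nat.cast_nonneg _) hNε
  obtain ⟨m₁, ρ₁, c₁, hρ₁, hc₁, H₁⟩ := cover hSh hNZ (k' + 1) (by omega) ε θ hε hθ hθ1 C₁ t hC₁ ht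
  obtain ⟨m₂, ρ₂, c₂, hρ₂, hc₂, H₂⟩ := cover hSh hNZ k' hk' ε θ hε hθ hθ1 C₁ t hC₁ ht
  set m : ℕ := m₁ + (k' + 1) * (m₁ * m₂) + m₂ with hm
  set ρ : ℝ := min ρ₁ ρ₂ with hρ
  set c : ℝ := min (min c₁ c₂) (1 / 2 ^ (k' + 1)) with hc
  have hc0 : 0 < c := lt_min (lt_min hc₁ hc₂) (by positivity)
  have hcc₁ : c ≤ c₁ := (min_le_left _ _).trans (min_le_left _ _)
  have hcc₂ : c ≤ c₂ := (min_le_left _ _).trans (min_le_right _ _)
  have hc2 : c ≤ 1 / 2 ^ (k' + 1) := min_le_right _ _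
  refine ⟨m, ρ, c, lt_min hρ₁ hρ₂, hc0, ?_⟩
  intro N X Adm B hB0 hBne hBN hN1 h1 h2
  have hNpos : (0 : ℝ) < N := by exact_mod_cast hN1
  have hNε : (N : ℝ) ^ (-ε) ≤ 1 := by
    apply Real.rpow_le_one_of_one_le_of_nonpos (by exact_mod_cast hN1) (by linarith)
  rcases lt_or_ge N 3 with hN3 | hN3
  · -- small `N`
    refine ⟨fun _ => ∅, by simp, ?_⟩
    intro x hx _
    have hne : (mixSet (fun i => B i (x i))).Nonempty :=
      mixSet_nonempty (fun i => hBne i (x i) (hx i))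
    have h3 : (1 : ℝ) ≤ ((mixSet (fun i => B i (x i))).card : ℝ) := by
      exact_mod_cast card_pos.2 hne
    refine le_trans ?_ h3
    have h4 : ∏ i, ((B i (x i)).card : ℝ) ≤ 2 ^ (k' + 1) := by
      calc ∏ i, ((B i (x i)).card : ℝ) ≤ ∏ _i : Fin (k' + 1), (2 : ℝ) := by
            apply prod_le_prod (fun _ _ => Nat.cast_nonneg _)
            intro i _
            have := hBN i (x i)
            exact_mod_cast (by omega : (B i (x i)).card ≤ 2)
        _ = 2 ^ (k' + 1) := by rw [prod_const, card_univ, Fintype.card_fin]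
    calc c * (N : ℝ) ^ (-ε) * ∏ i, ((B i (x i)).card : ℝ)
        ≤ (1 / 2 ^ (k' + 1)) * 1 * 2 ^ (k' + 1) := by
          apply mul_le_mul _ h4 (prod_nonneg fun _ _ => Nat.cast_nonneg _) (by positivity)
          exact mul_le_mul hc2 hNε (by positivity) (by positivity)
      _ = 1 := by field_simp
  have hLL : 0 ≤ Real.log N * Real.log (Real.log N) := by
    have h3 : (1 : ℝ) ≤ Real.log N := by
      rw [Real.le_log_iff_exp_le hNpos]
      have h4 : Real.exp 1 < 2.7182818286 := Real.exp_one_lt_d9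
      have h5 : (3 : ℝ) ≤ N := by exact_mod_cast hN3
      linarith
    exact mul_nonneg (by linarith) (Real.log_nonneg h3)
  have hρ₁' : ρ * (Real.log N * Real.log (Real.log N)) ≤
      ρ₁ * (Real.log N * Real.log (Real.log N)) :=
    mul_le_mul_of_nonneg_right (min_le_left _ _) hLL
  have hρ₂' : ρ * (Real.log N * Real.log (Real.log N)) ≤
      ρ₂ * (Real.log N * Real.log (Real.log N)) :=
    mul_le_mul_of_nonneg_right (min_le_right _ _) hLL
  -- the first covering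
  obtain ⟨E₀, hE₀c, hE₀⟩ := H₁ N X Adm B {1} hB0 hBne hBN (singleton_nonempty _)
    (by simp) (by rw [card_singleton]; exact hN1)
    (fun κ hκ hκ1 i J hJ hJc y hy hyJ V hV =>
      (h1 κ hκ hκ1 i J hJ (by omega) y hy hyJ V hV).trans (by linarith))
    (fun κ hκ hκ1 i J hJ hJc => by
      obtain ⟨s, hs1, hs2⟩ := h2 κ hκ hκ1 i J hJ (by omega)
      exact ⟨s, fun n => (hs1 n).trans hρ₁', hs2⟩)
  -- the second covering
  have hE₁ : ∀ (i₀ : Fin (k' + 1)) (y : X), ∃ E : Fin k' → Finset X, (∀ i, (E i).card ≤ m₂) ∧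
      (Adm y → ∀ x : Fin k' → X, (∀ i, Adm (x i)) → (∀ i, x i ∉ E i) →
        c₂ * (N : ℝ) ^ (-ε) * (((B i₀ y).card : ℝ) *
          ∏ j, ((B (i₀.succAbove j) (x j)).card : ℝ)) ≤
          ((mixSet (seq (fun j => B (i₀.succAbove j) (x j)) id (B i₀ y))).card : ℝ)) := by
    intro i₀ y
    by_cases hy : Adm y
    · obtain ⟨E, hE1, hE2⟩ := H₂ N X Adm (fun j => B (i₀.succAbove j)) (B i₀ y)
        (fun i x => hB0 _ x) (fun i x hx => hBne _ x hx) (fun i x => hBN _ x) (hBne i₀ y hy)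
        (hB0 i₀ y) (hBN i₀ y)
        (fun κ hκ hκ1 i J hJ hJc z hz hzJ V hV =>
          (h1 κ hκ hκ1 (i₀.succAbove i) J hJ (by omega) z hz hzJ V hV).trans (by linarith))
        (fun κ hκ hκ1 i J hJ hJc => by
          obtain ⟨s, hs1, hs2⟩ := h2 κ hκ hκ1 (i₀.succAbove i) J hJ (by omega)
          exact ⟨s, fun n => (hs1 n).trans hρ₂', hs2⟩)
      exact ⟨E, hE1, fun _ => hE2⟩
    · exact ⟨fun _ => ∅, by simp, fun h => absurd h hy⟩
  choose E₁ hE₁c hE₁ using hE₁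
  set E₂ : Fin (k' + 1) → X → Fin (k' + 1) → Finset X := fun i₀ y =>
    Fin.insertNth (α := fun _ => Finset X) i₀ ∅ (E₁ i₀ y) with hE₂
  have hE₂c : ∀ i₀ y i, (E₂ i₀ y i).card ≤ m₂ := by
    intro i₀ y i
    rw [hE₂]
    simp only
    rcases Fin.eq_self_or_eq_succAbove i₀ i with h | ⟨j, h⟩
    · rw [h, Fin.insertNth_apply_same, card_empty]
      exact Nat.zero_le _
    · rw [h, Fin.insertNth_apply_succAbove]
      exact hE₁c i₀ y j
  refine ⟨fun i => E₀ i ∪ univ.biUnion (fun i₀ => (E₀ i₀).biUnion (fun y => E₂ i₀ y i)),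
    ?_, ?_⟩
  · intro i
    refine (card_union_le _ _).trans ?_
    have h3 : (univ.biUnion (fun i₀ => (E₀ i₀).biUnion (fun y => E₂ i₀ y i))).card ≤
        (k' + 1) * (m₁ * m₂) := by
      refine card_biUnion_le.trans ?_
      calc ∑ i₀, ((E₀ i₀).biUnion (fun y => E₂ i₀ y i)).card ≤
          ∑ _i₀ : Fin (k' + 1), m₁ * m₂ := by
            apply sum_le_sum
            intro i₀ _
            refine card_biUnion_le.trans ?_
            calc ∑ y ∈ E₀ i₀, (E₂ i₀ y i).card ≤ ∑ _y ∈ E₀ i₀, m₂ :=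
                  sum_le_sum fun y _ => hE₂c i₀ y i
              _ = (E₀ i₀).card * m₂ := by rw [sum_const, smul_eq_mul]
              _ ≤ m₁ * m₂ := Nat.mul_le_mul_right _ (hE₀c i₀)
        _ = (k' + 1) * (m₁ * m₂) := by
            rw [sum_const, card_univ, Fintype.card_fin, smul_eq_mul]
    have h4 := hE₀c i
    omega
  · intro x hx hxE
    by_contra hcon
    push Not at hcon
    have hp0 : 0 ≤ (N : ℝ) ^ (-ε) := by positivity
    have hprod0 : 0 ≤ ∏ i, ((B i (x i)).card : ℝ) := prod_nonneg fun _ _ => Nat.cast_nonneg _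
    -- the first exceptional coordinate
    obtain ⟨i₀, hi₀⟩ : ∃ i₀, x i₀ ∈ E₀ i₀ := by
      by_contra hno
      push Not at hno
      have h3 := hE₀ x hx hno
      rw [mixSet_seq_one, card_singleton, Nat.cast_one, one_mul] at h3
      have h4 : c * (N : ℝ) ^ (-ε) * ∏ i, ((B i (x i)).card : ℝ) ≤
          c₁ * (N : ℝ) ^ (-ε) * ∏ i, ((B i (x i)).card : ℝ) :=
        mul_le_mul_of_nonneg_right (mul_le_mul_of_nonneg_right hcc₁ hp0) hprod0
      linarith
    -- the second one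
    obtain ⟨j, hj⟩ : ∃ j, x (i₀.succAbove j) ∈ E₁ i₀ (x i₀) j := by
      by_contra hno
      push Not at hno
      have h3 := hE₁ i₀ (x i₀) (hx i₀) (fun j => x (i₀.succAbove j)) (fun j => hx _) hno
      have h4 : mixSet (seq (fun j => B (i₀.succAbove j) (x (i₀.succAbove j))) id
          (B i₀ (x i₀))) = mixSet (fun i => B i (x i)) :=
        mixSet_succAbove (fun i => B i (x i)) i₀
      rw [h4] at h3
      have h5 : ((B i₀ (x i₀)).card : ℝ) *
          ∏ j, ((B (i₀.succAbove j) (x (i₀.succAbove j))).card : ℝ) =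
          ∏ i, ((B i (x i)).card : ℝ) :=
        (Fin.prod_univ_succAbove (fun i => ((B i (x i)).card : ℝ)) i₀).symm
      rw [h5] at h3
      have h6 : c * (N : ℝ) ^ (-ε) * ∏ i, ((B i (x i)).card : ℝ) ≤
          c₂ * (N : ℝ) ^ (-ε) * ∏ i, ((B i (x i)).card : ℝ) :=
        mul_le_mul_of_nonneg_right (mul_le_mul_of_nonneg_right hcc₂ hp0) hprod0
      linarith
    apply hxE
    refine ⟨i₀, i₀.succAbove j, (Fin.succAbove_ne i₀ j).symm, mem_union_left _ hi₀,
      mem_union_right _ ?_⟩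
    rw [mem_biUnion]
    refine ⟨i₀, mem_univ _, ?_⟩
    rw [mem_biUnion]
    refine ⟨x i₀, hi₀, ?_⟩
    rw [hE₂]
    simp only
    rw [Fin.insertNth_apply_succAbove]
    exact hj

end Pool.Agent.Helper34.TR
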