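import Pool.Agent.Helper34.TR.Ord
import Pool.Agent.Helper34.TR.Pf
import Pool.Agent.Helper26.TR.NZ

set_option autoImplicit false

/-!
MP_120218_co, project TR, general form: coordinatewise disjoint families of exceptional tuples are
bounded.
-/

open Finset

namespace Pool.Agent.Helper34.TR

open Pool.Agent.Helper26.TR

/-- Shearer's inequality for the parts free of primes (helper99) -/
def ShearerS : Prop :=
  ∀ (G : Finset ℤ), (0 : ℤ) ∉ G → ∀ (n t : ℕ) (P : Fin n → Finset ℕ),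
    (∀ j, ∀ q ∈ P j, q.Prime) →
    (∀ q : ℕ, q.Prime → (univ.filter (fun j => q ∈ P j)).card ≤ t) →
    G.card ^ n ≤ G.card ^ t * ∏ j, (G.image (pf (P j))).card

/-- a family of tuples in which all coordinates are related along `f` -/
theorem card_cycle {k : ℕ} {X : Type} [DecidableEq X] (B : Fin k → X → Finset ℤ)
    {κ θ C₁ C₂ w ρ : ℝ} (F : Finset (Fin k → X)) (Adm : X → Prop)
    (hAdm : ∀ x ∈ F, ∀ i, Adm (x i))
    (hdis : ∀ x ∈ F, ∀ y ∈ F, x ≠ y → ∀ i, x i ≠ y i)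
    (I : Finset (Fin k)) (hI : I.Nonempty) (f : Fin k → Fin k) (hf : ∀ i ∈ I, f i ∈ I)
    (H1 : ∀ i : Fin k, ∀ J : Finset X, (∀ x ∈ J, Adm x) → J.card ≤ F.card → ∀ y, Adm y → y ∉ J →
      ∀ V : ℝ, (∀ (T : Finset ℕ) (e : ℕ → ℕ) (β : ℕ → ℤ), Pop (θ * κ) (B i y) T e β →
        W1 T e β ≤ V) → ∑ x ∈ J, W0 κ (B i x) ≤ C₁ * V + ρ)
    (hrel : ∀ x ∈ F, ∀ i ∈ I, (∀ (T : Finset ℕ) (e : ℕ → ℕ) (β : ℕ → ℤ),
      Pop (θ * κ) (B i (x i)) T e β → W1 T e β ≤ C₂ * W0 κ (B (f i) (x (f i)))) ∧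
      w ≤ W0 κ (B (f i) (x (f i))))
    (hw : 0 < w) (hρ : ρ ≤ w) (hC₁ : 0 ≤ C₁) (hC₂ : 0 ≤ C₂) :
    (F.card : ℝ) ≤ C₁ * C₂ + 2 := by
  classical
  rcases F.eq_empty_or_nonempty with hF | hF
  · rw [hF, card_empty, Nat.cast_zero]
    positivity
  set S : Fin k → ℝ := fun i => ∑ x ∈ F, W0 κ (B i (x i)) with hS
  set n : ℝ := (F.card : ℝ) with hn
  have hn1 : 1 ≤ n := by
    rw [hn]
    exact_mod_cast card_pos.2 hF
  have hinj : ∀ i, Set.InjOn (fun x : Fin k → X => x i) F := by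
    intro i x hx y hy hxy
    by_contra hne
    exact hdis x hx y hy hne i hxy
  -- one tuple against the others
  have hone : ∀ i ∈ I, ∀ x₀ ∈ F, S i - W0 κ (B i (x₀ i)) ≤
      C₁ * (C₂ * W0 κ (B (f i) (x₀ (f i)))) + ρ := by
    intro i hi x₀ hx₀
    have h1 := H1 i ((F.erase x₀).image (fun x => x i)) (by
      intro z hz
      obtain ⟨x, hx, rfl⟩ := mem_image.1 hz
      exact hAdm x (mem_of_mem_erase hx) i) (card_image_le.trans (card_le_card (erase_subset _ _)))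
      (x₀ i) (hAdm x₀ hx₀ i) (by
      intro hmem
      obtain ⟨x, hx, hxx⟩ := mem_image.1 hmem
      exact hdis x (mem_of_mem_erase hx) x₀ hx₀ (ne_of_mem_erase hx) i hxx) _
      (hrel x₀ hx₀ i hi).1
    rw [sum_image (fun x hx y hy hxy => hinj i (mem_coe.2 (mem_of_mem_erase hx))
      (mem_coe.2 (mem_of_mem_erase hy)) hxy)] at h1
    have h2 : S i = W0 κ (B i (x₀ i)) + ∑ x ∈ F.erase x₀, W0 κ (B i (x i)) := by
      rw [hS]
      exact (add_sum_erase F (fun x => W0 κ (B i (x i))) hx₀).symm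
    linarith
  have hsum : ∀ i ∈ I, (n - 1) * S i ≤ C₁ * C₂ * S (f i) + n * ρ := by
    intro i hi
    have h1 := sum_le_sum (hone i hi)
    rw [sum_sub_distrib, sum_const, nsmul_eq_mul, sum_add_distrib, sum_const, nsmul_eq_mul,
      ← mul_sum, ← mul_sum] at h1
    have h2 : ∑ x ∈ F, W0 κ (B i (x i)) = S i := rfl
    have h3 : ∑ x ∈ F, W0 κ (B (f i) (x (f i))) = S (f i) := rfl
    rw [h2, h3] at h1
    linarith
  obtain ⟨i, hi, hmax⟩ := exists_max_image I S hI
  have h1 := hsum i hi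
  have h2 : S (f i) ≤ S i := hmax _ (hf i hi)
  have h3 : n * w ≤ S (f i) := by
    have h4 : ∑ _x ∈ F, w ≤ ∑ x ∈ F, W0 κ (B (f i) (x (f i))) :=
      sum_le_sum fun x hx => (hrel x hx i hi).2
    rw [sum_const, nsmul_eq_mul] at h4
    exact h4
  have h4 : n * ρ ≤ n * w := mul_le_mul_of_nonneg_left hρ (by linarith)
  have hSpos : 0 < S i := by
    have : 0 < n * w := by positivity
    linarith
  have h5 : C₁ * C₂ * S (f i) ≤ C₁ * C₂ * S i := mul_le_mul_of_nonneg_left h2 (by positivity)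
  have h6 : (n - 1) * S i ≤ (C₁ * C₂ + 1) * S i := by
    calc (n - 1) * S i ≤ C₁ * C₂ * S (f i) + n * ρ := h1
      _ ≤ C₁ * C₂ * S i + S i := by linarith
      _ = (C₁ * C₂ + 1) * S i := by ring
  have h7 := le_of_mul_le_mul_right h6 hSpos
  linarith

/-- a family of tuples whose levels are small outside few primes -/
theorem card_typeG {k : ℕ} {X : Type} [DecidableEq X] (hSh : ShearerS) (B : Fin k → X → Finset ℤ)
    (hB0 : ∀ i x, (0 : ℤ) ∉ B i x)
    (G : Finset ℤ) (hG0 : (0 : ℤ) ∉ G) (hGne : G.Nonempty) {κ ρ w ζ t : ℝ} {N : ℕ} (hN : 2 ≤ N)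
    (hGN : G.card ≤ N) (F : Finset (Fin k → X)) (Adm : X → Prop)
    (hAdm : ∀ x ∈ F, ∀ i, Adm (x i))
    (hdis : ∀ x ∈ F, ∀ y ∈ F, x ≠ y → ∀ i, x i ≠ y i)
    (H2 : ∀ i : Fin k, ∀ J : Finset X, (∀ x ∈ J, Adm x) → J.card ≤ F.card → ∃ s : ℕ → ℕ,
      (∀ n, Wt n s ≤ ρ) ∧ ∀ q : ℕ, q.Prime →
        ((J.filter (fun x => s q < lev κ (B i x) q)).card : ℝ) ≤ t)
    (htype : ∀ x ∈ F, ∀ P : Finset ℕ, (∀ q ∈ P, q.Prime) →
      (∀ n, Wt n (fun q => if q ∈ P then 0 else ∑ i, lev κ (B i (x i)) q) < w) →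
      ((G.image (pf P)).card : ℝ) ≤ (N : ℝ) ^ (-ζ) * (G.card : ℝ))
    (hρ : k * ρ < w) (ht : 0 ≤ t) :
    (F.card : ℝ) * ζ ≤ k * t := by
  classical
  have hinj : ∀ i, Set.InjOn (fun x : Fin k → X => x i) F := by
    intro i x hx y hy hxy
    by_contra hne
    exact hdis x hx y hy hne i hxy
  -- the separating levels
  have hs : ∀ i : Fin k, ∃ s : ℕ → ℕ, (∀ n, Wt n s ≤ ρ) ∧ ∀ q : ℕ, q.Prime →
      ((F.filter (fun x => s q < lev κ (B i (x i)) q)).card : ℝ) ≤ t := by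
    intro i
    obtain ⟨s, h1, h2⟩ := H2 i (F.image (fun x => x i)) (by
      intro z hz
      obtain ⟨x, hx, rfl⟩ := mem_image.1 hz
      exact hAdm x hx i) card_image_le
    refine ⟨s, h1, fun q hq => ?_⟩
    refine le_trans (le_of_eq ?_) (h2 q hq)
    congr 1
    rw [filter_image, card_image_of_injOn]
    intro x hx y hy hxy
    exact hinj i (mem_coe.2 (mem_filter.1 (mem_coe.1 hx)).1)
      (mem_coe.2 (mem_filter.1 (mem_coe.1 hy)).1) hxy
  choose s hsW hst using hs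
  set lam : (Fin k → X) → ℕ → ℕ := fun x q => ∑ i, lev κ (B i (x i)) q with hlam
  set P : (Fin k → X) → Finset ℕ := fun x =>
    (range (bd (fun i => B i (x i)))).filter (fun q => q.Prime ∧ ∑ i, s i q < lam x q) with hP
  have hPprime : ∀ x, ∀ q ∈ P x, q.Prime := fun x q hq => (mem_filter.1 hq).2.1
  have hlam0 : ∀ x q, bd (fun i => B i (x i)) ≤ q → lam x q = 0 := by
    intro x q hq
    rw [hlam]
    apply sum_eq_zero
    intro i _
    exact lev_zero_of_bd (A := fun i => B i (x i)) (fun l => hB0 l (x l)) (l := i) hq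
  have hoff : ∀ x, ∀ q : ℕ, q.Prime → (if q ∈ P x then 0 else lam x q) ≤ ∑ i, s i q := by
    intro x q hq
    split_ifs with h
    · exact Nat.zero_le _
    · by_contra hlt
      push Not at hlt
      apply h
      rw [hP, mem_filter, mem_range]
      refine ⟨?_, hq, hlt⟩
      by_contra hge
      push Not at hge
      rw [hlam0 x q hge] at hlt
      omega
  have himg : ∀ x ∈ F, ((G.image (pf (P x))).card : ℝ) ≤ (N : ℝ) ^ (-ζ) * (G.card : ℝ) := by
    intro x hx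
    apply htype x hx (P x) (hPprime x)
    intro n
    refine lt_of_le_of_lt ?_ hρ
    calc Wt n (fun q => if q ∈ P x then 0 else ∑ i, lev κ (B i (x i)) q)
        ≤ ∑ i, Wt n (s i) := by
          unfold Wt
          rw [sum_comm]
          apply sum_le_sum
          intro q hq
          rw [← sum_mul]
          apply mul_le_mul_of_nonneg_right _ (Real.log_natCast_nonneg q)
          have := hoff x q (mem_filter.1 hq).2
          exact_mod_cast this
      _ ≤ ∑ _i : Fin k, ρ := sum_le_sum fun i _ => hsW i n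
      _ = k * ρ := by rw [sum_const, card_univ, Fintype.card_fin, nsmul_eq_mul]
  -- multiplicities
  have hmult : ∀ q : ℕ, q.Prime → ((F.filter (fun x => q ∈ P x)).card : ℝ) ≤ k * t := by
    intro q hq
    have h1 : F.filter (fun x => q ∈ P x) ⊆
        univ.biUnion (fun i : Fin k => F.filter (fun x => s i q < lev κ (B i (x i)) q)) := by
      intro x hx
      obtain ⟨hxF, hxq⟩ := mem_filter.1 hx
      have h2 : ∑ i, s i q < ∑ i, lev κ (B i (x i)) q := (mem_filter.1 hxq).2.2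
      obtain ⟨i, _, hi⟩ := exists_lt_of_sum_lt h2
      rw [mem_biUnion]
      exact ⟨i, mem_univ _, mem_filter.2 ⟨hxF, hi⟩⟩
    have h2 : ((F.filter (fun x => q ∈ P x)).card : ℝ) ≤
        ∑ i : Fin k, ((F.filter (fun x => s i q < lev κ (B i (x i)) q)).card : ℝ) := by
      have := (card_le_card h1).trans card_biUnion_le
      exact_mod_cast this
    refine h2.trans ?_
    calc _ ≤ ∑ _i : Fin k, t := sum_le_sum fun i _ => hst i q hq
      _ = k * t := by rw [sum_const, card_univ, Fintype.card_fin, nsmul_eq_mul]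
  -- Shearer
  set n : ℕ := F.card with hn
  set e : Fin n ≃ {x // x ∈ F} := F.equivFin.symm with he
  set t' : ℕ := ⌊(k : ℝ) * t⌋₊ with ht'
  have hkt : 0 ≤ (k : ℝ) * t := by positivity
  have hmain := hSh G hG0 n t' (fun j => P (e j)) (fun j q hq => hPprime _ q hq) (by
    intro q hq
    apply Nat.le_floor
    refine le_trans (Nat.cast_le.2 ?_) (hmult q hq)
    apply Finset.card_le_card_of_injOn (fun j => ((e j : {x // x ∈ F}) : Fin k → X))
    · intro j hj
      rw [mem_coe, mem_filter] at hj ⊢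
      exact ⟨(e j).2, hj.2⟩
    · intro j _ j' _ hjj
      exact e.injective (Subtype.ext hjj))
  have hGpos : (0 : ℝ) < G.card := by exact_mod_cast card_pos.2 hGne
  have hNpos : (0 : ℝ) < N := by
    have : 0 < N := by omega
    exact_mod_cast this
  have hN1 : (1 : ℝ) < N := by exact_mod_cast (by omega : 1 < N)
  have h1 : (G.card : ℝ) ^ n ≤ (G.card : ℝ) ^ t' * ((N : ℝ) ^ (-ζ) * (G.card : ℝ)) ^ n := by
    have h2 : (G.card : ℝ) ^ n ≤
        (G.card : ℝ) ^ t' * ∏ j : Fin n, ((G.image (pf (P (e j)))).card : ℝ) := by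
      exact_mod_cast hmain
    refine h2.trans ?_
    apply mul_le_mul_of_nonneg_left _ (by positivity)
    calc ∏ j : Fin n, ((G.image (pf (P (e j)))).card : ℝ)
        ≤ ∏ _j : Fin n, ((N : ℝ) ^ (-ζ) * (G.card : ℝ)) :=
          prod_le_prod (fun _ _ => Nat.cast_nonneg _) fun j _ => himg _ (e j).2
      _ = ((N : ℝ) ^ (-ζ) * (G.card : ℝ)) ^ n := by
          rw [prod_const, card_univ, Fintype.card_fin]
  rw [mul_pow, ← mul_assoc] at h1
  have h3 : 1 * (G.card : ℝ) ^ n ≤ ((G.card : ℝ) ^ t' * ((N : ℝ) ^ (-ζ)) ^ n) * (G.card : ℝ) ^ n := by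
    rw [one_mul]; exact h1
  have h4 := le_of_mul_le_mul_right h3 (by positivity)
  have h5 : (G.card : ℝ) ^ t' ≤ (N : ℝ) ^ t' :=
    pow_le_pow_left₀ hGpos.le (by exact_mod_cast hGN) _
  have h6 : (1 : ℝ) ≤ (N : ℝ) ^ ((t' : ℝ) - ζ * n) := by
    calc (1 : ℝ) ≤ (G.card : ℝ) ^ t' * ((N : ℝ) ^ (-ζ)) ^ n := h4
      _ ≤ (N : ℝ) ^ t' * ((N : ℝ) ^ (-ζ)) ^ n :=
          mul_le_mul_of_nonneg_right h5 (by positivity)
      _ = (N : ℝ) ^ ((t' : ℝ) - ζ * n) := by
          rw [← Real.rpow_natCast (N : ℝ) t', ← Real.rpow_natCast ((N : ℝ) ^ (-ζ)) n,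
            ← Real.rpow_mul hNpos.le, ← Real.rpow_add hNpos]
          congr 1
          ring
  have h7 : 0 ≤ (t' : ℝ) - ζ * n := by
    by_contra hneg
    push Not at hneg
    have := Real.rpow_lt_one_of_one_lt_of_neg hN1 hneg
    linarith
  have h8 : (t' : ℝ) ≤ k * t := Nat.floor_le hkt
  linarith

end Pool.Agent.Helper34.TR
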