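import Pool.Agent.Helper26.TR.Defs
import Pool.Agent.Helper88.NZ.Mix

set_option autoImplicit false

/-!
MP_120218_co, project TR, general form: orders without backward relations, products of sets in
different orders.
-/

open Finset

namespace Pool.Agent.Helper34.TR

open Pool.Agent.Helper26.TR Pool.Agent.Helper88.NZ

/-- Either at some stage `l` there is a nonempty set in which every element is related to some
element, or there is an order without backward relations. -/
theorem exists_order {k : ℕ} (R : ℕ → Fin k → Fin k → Prop)
    (h : ∀ l < k, ∀ I : Finset (Fin k), I.Nonempty → ∃ i ∈ I, ∀ j ∈ I, ¬ R l i j) :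
    ∃ σ : Fin k → Fin k, Function.Injective σ ∧
      ∀ l l' : Fin k, l' < l → ¬ R l (σ l) (σ l') := by
  classical
  have key : ∀ n : ℕ, n ≤ k → ∀ I : Finset (Fin k), I.card = n →
      ∃ σ : Fin n → Fin k, Function.Injective σ ∧ (∀ l, σ l ∈ I) ∧
        ∀ l l' : Fin n, l' < l → ¬ R l (σ l) (σ l') := by
    intro n
    induction n with
    | zero =>
      intro _ I _
      exact ⟨fun l => l.elim0, fun l => l.elim0, fun l => l.elim0, fun l => l.elim0⟩
    | succ n ih =>
      intro hn I hI
      have hIne : I.Nonempty := card_pos.1 (by omega)
      obtain ⟨i, hi, hiR⟩ := h n (by omega) I hIne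
      obtain ⟨σ, hσinj, hσI, hσR⟩ := ih (by omega) (I.erase i) (by
        rw [card_erase_of_mem hi, hI]; rfl)
      refine ⟨Fin.snoc (α := fun _ => Fin k) σ i, ?_, ?_, ?_⟩
      · intro a b hab
        induction a using Fin.lastCases with
        | last =>
          induction b using Fin.lastCases with
          | last => rfl
          | cast b =>
            rw [Fin.snoc_last, Fin.snoc_castSucc] at hab
            exact absurd hab.symm (ne_of_mem_erase (hσI b))
        | cast a =>
          induction b using Fin.lastCases with
          | last =>
            rw [Fin.snoc_last, Fin.snoc_castSucc] at hab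
            exact absurd hab (ne_of_mem_erase (hσI a))
          | cast b =>
            rw [Fin.snoc_castSucc, Fin.snoc_castSucc] at hab
            rw [hσinj hab]
      · intro l
        induction l using Fin.lastCases with
        | last => rw [Fin.snoc_last]; exact hi
        | cast l => rw [Fin.snoc_castSucc]; exact mem_of_mem_erase (hσI l)
      · intro l l' hl
        induction l using Fin.lastCases with
        | last =>
          induction l' using Fin.lastCases with
          | last => exact absurd hl (lt_irrefl _)
          | cast l' =>
            rw [Fin.snoc_last, Fin.snoc_castSucc, Fin.val_last]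
            exact hiR _ (mem_of_mem_erase (hσI l'))
        | cast l =>
          induction l' using Fin.lastCases with
          | last =>
            exfalso
            have : (Fin.last n : ℕ) < (l.castSucc : ℕ) := hl
            rw [Fin.val_last, Fin.val_castSucc] at this
            have := l.2
            omega
          | cast l' =>
            rw [Fin.snoc_castSucc, Fin.snoc_castSucc, Fin.val_castSucc]
            exact hσR l l' (by
              have : (l'.castSucc : ℕ) < (l.castSucc : ℕ) := hl
              rw [Fin.val_castSucc, Fin.val_castSucc] at this
              exact this)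
  obtain ⟨σ, h1, -, h3⟩ := key k le_rfl univ (by rw [card_univ, Fintype.card_fin])
  exact ⟨σ, h1, h3⟩

/-- products of sets do not depend on the order -/
theorem mixSet_equiv {a b : ℕ} (e : Fin a ≃ Fin b) (A : Fin b → Finset ℤ) :
    mixSet (fun i => A (e i)) = mixSet A := by
  have hab : a = b := by
    have := Fintype.card_congr e
    rwa [Fintype.card_fin, Fintype.card_fin] at this
  subst hab
  exact mixSet_perm A e

/-- the `k` sets in the order `σ`, followed by `G` -/
def seq {k : ℕ} (A : Fin k → Finset ℤ) (σ : Fin k → Fin k) (G : Finset ℤ) :
    Fin (k + 1) → Finset ℤ :=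
  Fin.snoc (α := fun _ => Finset ℤ) (fun l => A (σ l)) G

theorem seq_cast {k : ℕ} (A : Fin k → Finset ℤ) (σ : Fin k → Fin k) (G : Finset ℤ) (l : Fin k) :
    seq A σ G l.castSucc = A (σ l) := by
  unfold seq
  rw [Fin.snoc_castSucc]

theorem seq_last {k : ℕ} (A : Fin k → Finset ℤ) (σ : Fin k → Fin k) (G : Finset ℤ) :
    seq A σ G (Fin.last k) = G := by
  unfold seq
  rw [Fin.snoc_last]

/-- the permutation `σ` extended by the last element -/
noncomputable def ext {k : ℕ} (σ : Fin k → Fin k) (h : Function.Injective σ) :
    Equiv.Perm (Fin (k + 1)) :=
  Equiv.ofBijective (fun l => Fin.lastCases (motive := fun _ => Fin (k + 1)) (Fin.last k)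
    (fun i => (σ i).castSucc) l) (by
    rw [← Finite.injective_iff_bijective]
    intro a b hab
    induction a using Fin.lastCases with
    | last =>
      induction b using Fin.lastCases with
      | last => rfl
      | cast b =>
        simp only [Fin.lastCases_last, Fin.lastCases_castSucc] at hab
        exact absurd hab.symm (Fin.castSucc_lt_last _).ne
    | cast a =>
      induction b using Fin.lastCases with
      | last =>
        simp only [Fin.lastCases_last, Fin.lastCases_castSucc] at hab
        exact absurd hab (Fin.castSucc_lt_last _).ne
      | cast b =>
        simp only [Fin.lastCases_castSucc] at hab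
        rw [h (Fin.castSucc_injective _ hab)])

theorem mixSet_seq {k : ℕ} (A : Fin k → Finset ℤ) (σ : Fin k → Fin k)
    (h : Function.Injective σ) (G : Finset ℤ) :
    mixSet (seq A σ G) = mixSet (seq A id G) := by
  rw [← mixSet_perm (seq A id G) (ext σ h)]
  congr 1
  funext l
  induction l using Fin.lastCases with
  | last =>
    have : ext σ h (Fin.last k) = Fin.last k := by
      unfold ext
      simp
    rw [this, seq_last, seq_last]
  | cast l =>
    have : ext σ h l.castSucc = (σ l).castSucc := by
      unfold ext
      simp
    rw [this, seq_cast, seq_cast]
    rfl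

end Pool.Agent.Helper34.TR
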