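import Pool.Agent.Helper34.TR.NZG
import Pool.Agent.Helper34.TR.Ord
import Pool.Agent.Helper88.NZ.PolyD

set_option autoImplicit false

/-!
MP_120218_co, project TR: the structure theorem for `k` sets with slack, from the general one.
-/

open Finset

namespace Pool.Agent.Helper34.TR

open Pool.Agent.Helper26.TR Pool.Agent.Helper88.NZ

theorem mixSet_seq_one' {k : ℕ} (A : Fin k → Finset ℤ) :
    (mixSet (seq A id {1})).card = (mixSet A).card := by
  classical
  congr 1
  unfold mixSet
  ext z
  rw [mem_image, mem_image]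
  constructor
  · rintro ⟨f, hf, rfl⟩
    rw [Fintype.mem_piFinset] at hf
    refine ⟨fun i => f i.castSucc, ?_, ?_⟩
    · rw [Fintype.mem_piFinset]
      intro i
      have := hf i.castSucc
      rwa [seq_cast] at this
    · have h1 := hf (Fin.last k)
      rw [seq_last, mem_singleton] at h1
      rw [Fin.prod_univ_castSucc, h1, mul_one]
  · rintro ⟨f, hf, rfl⟩
    rw [Fintype.mem_piFinset] at hf
    refine ⟨Fin.snoc (α := fun _ => ℤ) f 1, ?_, ?_⟩
    · rw [Fintype.mem_piFinset]
      intro l
      induction l using Fin.lastCases with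
      | last => rw [Fin.snoc_last, seq_last]; exact mem_singleton_self _
      | cast l => rw [Fin.snoc_castSucc, seq_cast]; exact hf l
    · rw [Fin.prod_univ_castSucc]
      simp

theorem W0b_seq {k : ℕ} (κ : ℝ) (A : Fin k → Finset ℤ) (G : Finset ℤ) (l : Fin k) :
    W0b κ (seq A id G) l.castSucc = W0b κ A l := by
  classical
  unfold W0b
  have h1 : univ.filter (fun l' : Fin (k + 1) => l' < l.castSucc) =
      (univ.filter (fun l' : Fin k => l' < l)).map Fin.castSuccEmb := by
    ext z
    rw [mem_filter, mem_map]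
    constructor
    · rintro ⟨_, hz⟩
      have hz' : (z : ℕ) < l := hz
      have hzk : (z : ℕ) < k := by have := l.2; omega
      exact ⟨⟨z, hzk⟩, mem_filter.2 ⟨mem_univ _, hz'⟩, rfl⟩
    · rintro ⟨y, hy, rfl⟩
      have hy' : (y : ℕ) < l := (mem_filter.1 hy).2
      exact ⟨mem_univ _, hy'⟩
  rw [h1, sum_map]
  apply sum_congr rfl
  intro y _
  have : seq A id G (Fin.castSuccEmb y) = A y := seq_cast _ _ _ y
  rw [this]

theorem nzMixT : NZMixT := by
  classical
  intro k ε hε θ hθ hθ1
  obtain ⟨κ, C, c, ζ, hκ, hC, hc, hζ, H⟩ := nzG k ε θ hε hθ hθ1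
  set c' : ℝ := min c (1 / 2 ^ k) with hc'
  have hc'0 : 0 < c' := lt_min hc (by positivity)
  refine ⟨fun l => κ l.castSucc, C, c', fun l => hκ _, hC, hc'0, ?_⟩
  intro N A hAne hA0 hAN hmix
  have hmixne : (mixSet A).Nonempty := mixSet_nonempty hAne
  have hmix1 : (1 : ℝ) ≤ ((mixSet A).card : ℝ) := by exact_mod_cast card_pos.2 hmixne
  have hN1 : 1 ≤ N := by
    by_contra h
    have hN0 : N = 0 := by omega
    subst hN0
    rw [Nat.cast_zero, Real.zero_rpow (by linarith)] at hmix
    linarith [hmix1]
  have hNpos : (0 : ℝ) < N := by exact_mod_cast hN1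
  have hNε : (N : ℝ) ^ (-ε) ≤ 1 := by
    apply Real.rpow_le_one_of_one_le_of_nonpos (by exact_mod_cast hN1) (by linarith)
  rcases lt_or_ge N 3 with hN3 | hN3
  · exfalso
    have h4 : ∏ i, ((A i).card : ℝ) ≤ 2 ^ k := by
      calc ∏ i, ((A i).card : ℝ) ≤ ∏ _i : Fin k, (2 : ℝ) := by
            apply prod_le_prod (fun _ _ => Nat.cast_nonneg _)
            intro i _
            have := hAN i
            exact_mod_cast (by omega : (A i).card ≤ 2)
        _ = 2 ^ k := by rw [prod_const, card_univ, Fintype.card_fin]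
    have h5 : c' * (N : ℝ) ^ (-ε) * ∏ i, ((A i).card : ℝ) ≤ 1 := by
      calc c' * (N : ℝ) ^ (-ε) * ∏ i, ((A i).card : ℝ)
          ≤ (1 / 2 ^ k) * 1 * 2 ^ k := by
            apply mul_le_mul _ h4 (prod_nonneg fun _ _ => Nat.cast_nonneg _) (by positivity)
            exact mul_le_mul (min_le_right _ _) hNε (by positivity) (by positivity)
        _ = 1 := by field_simp
    linarith
  have hLL : 0 < Real.log N * Real.log (Real.log N) := by
    have h4 : (1.09 : ℝ) ≤ Real.log N := by
      have h5 : Real.log 3 ≤ Real.log N := Real.log_le_log (by norm_num) (by exact_mod_cast hN3)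
      have h6 : (1.09 : ℝ) ≤ Real.log 3 := by
        rw [Real.le_log_iff_exp_le (by norm_num)]
        have h7 : Real.exp 1 < 2.7182818286 := Real.exp_one_lt_d9
        have h8 : Real.exp (0.09 : ℝ) ≤ 1 / (1 - 0.09) := by
          have h9 : 1 - (0.09 : ℝ) ≤ Real.exp (-(0.09 : ℝ)) := Real.one_sub_le_exp_neg _
          rw [Real.exp_neg] at h9
          rw [le_div_iff₀ (by norm_num), mul_comm, ← le_div_iff₀ (Real.exp_pos _), one_div]
          exact h9
        have h9 : Real.exp (1.09 : ℝ) = Real.exp 1 * Real.exp 0.09 := by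
          rw [← Real.exp_add]; norm_num
        rw [h9]
        calc Real.exp 1 * Real.exp 0.09 ≤ 2.7182818286 * (1 / (1 - 0.09)) :=
              mul_le_mul h7.le h8 (Real.exp_pos _).le (by norm_num)
          _ ≤ 3 := by norm_num
      linarith
    exact mul_pos (by linarith) (Real.log_pos (by linarith))
  set A' : Fin (k + 1) → Finset ℤ := seq A id {1} with hA'
  have hAcast : ∀ l : Fin k, A' l.castSucc = A l := fun l => seq_cast _ _ _ l
  have hAlast : A' (Fin.last k) = {1} := seq_last _ _ _
  have hAprop : ∀ (Q : Finset ℤ → Prop), (∀ i, Q (A i)) → Q {1} → ∀ l, Q (A' l) := by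
    intro Q hQ hQG l
    induction l using Fin.lastCases with
    | last => rw [hAlast]; exact hQG
    | cast l => rw [hAcast]; exact hQ _
  have hprod : ∏ l, ((A' l).card : ℝ) = ∏ i, ((A i).card : ℝ) := by
    rw [Fin.prod_univ_castSucc, hAlast, card_singleton, Nat.cast_one, mul_one,
      prod_congr rfl (fun l _ => by rw [hAcast l])]
  have hmix' : ((mixSet A').card : ℝ) < c * (N : ℝ) ^ (-ε) * ∏ l, ((A' l).card : ℝ) := by
    rw [hA', mixSet_seq_one', ← hA', hprod]
    refine hmix.trans_le ?_
    apply mul_le_mul_of_nonneg_right _ (prod_nonneg fun _ _ => Nat.cast_nonneg _)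
    exact mul_le_mul_of_nonneg_right (min_le_left _ _) (by positivity)
  rcases H N A' (hAprop (fun s => s.Nonempty) hAne (singleton_nonempty _))
    (hAprop (fun s => (0 : ℤ) ∉ s) hA0 (by simp))
    (hAprop (fun s => s.card ≤ N) hAN (by rw [card_singleton]; exact hN1)) hmix' with
    ⟨l, hl0, hlk, hl1, hl2⟩ | hG
  · set i : Fin k := ⟨l, hlk⟩ with hi
    have hil : l = i.castSucc := rfl
    refine ⟨i, hl0, ?_, ?_⟩
    · intro T e β hP
      have h1 := hl1 T e β (by rw [hil, hAcast]; exact hP)
      rw [hil, hA', W0b_seq] at h1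
      exact h1
    · rw [hil, hA', W0b_seq] at hl2
      refine le_trans ?_ hl2
      exact mul_le_mul_of_nonneg_right (min_le_left _ _) hLL.le
  · exfalso
    have h1 := hG ((range (bd A')).filter Nat.Prime) (fun q hq => (mem_filter.1 hq).2) (by
      have h2 : Wt (bd A') (fun q => if q ∈ (range (bd A')).filter Nat.Prime then 0
          else lamS κ A' (Fin.last k) q) = 0 := by
        unfold Wt
        apply sum_eq_zero
        intro q hq
        simp only [if_pos hq]
        rw [Nat.cast_zero, zero_mul]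
      rw [h2]
      exact mul_pos hc hLL)
    rw [hAlast, image_singleton, card_singleton, card_singleton, Nat.cast_one, mul_one] at h1
    have h3 : (N : ℝ) ^ (-ζ) < 1 :=
      Real.rpow_lt_one_of_one_lt_of_neg (by exact_mod_cast (by omega : 1 < N)) (by linarith)
    linarith

end Pool.Agent.Helper34.TR
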